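import Pool.Agent.Q178.CPX.Stmts

/-! Crowd lemma of helper178's blueprint `CPX` (by helper215). -/

namespace Pool.Agent.Q178.CPX.ConcA
open Filter Topology Set Pool.Agent.Q178.CPX

private theorem pow_eq (F G : ℝ) (k l : ℕ) (hG : 0 ≤ G) (hk : 0 < k) :
    F ^ k * G ^ l = (F * G ^ ((l : ℝ) / (k : ℝ))) ^ k := by
  have hk' : (k : ℝ) ≠ 0 := by positivity
  rw [mul_pow]
  congr 1
  rw [← Real.rpow_natCast (G ^ ((l : ℝ) / (k : ℝ))) k, ← Real.rpow_mul hG,
    div_mul_cancel₀ _ hk', Real.rpow_natCast]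

theorem main : TaskConcA := by
  intro u v t ρ f g k l huv ht hρ hf hg hf0 hg0 hft hgt hmax hk hkl δ hδ
  -- the compact set
  have hcont : ContinuousOn (fun p : ℝ × ℝ => f p.1 * g p.1 ^ p.2)
      (Icc u v ×ˢ Icc (ρ / 2) (2 * ρ)) := by
    refine ContinuousOn.mul (hf.comp continuousOn_fst fun p hp => hp.1) ?_
    refine ContinuousOn.rpow (hg.comp continuousOn_fst fun p hp => hp.1) continuousOn_snd ?_
    intro p hp
    right
    have := hp.2.1
    linarith
  have hcomp : IsCompact (Icc u v ×ˢ Icc (ρ / 2) (2 * ρ)) := isCompact_Icc.prod isCompact_Icc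
  have hunif := hcomp.uniformContinuousOn_of_continuous hcont
  set M : ℝ := f t * g t ^ ρ with hM
  have hMpos : 0 < M := mul_pos hft (Real.rpow_pos_of_pos hgt _)
  have hS : IsCompact (Icc u v ∩ {x | δ ≤ |x - t|}) :=
    isCompact_Icc.inter_right (isClosed_le continuous_const (by fun_prop))
  have hfg : ContinuousOn (fun x => f x * g x ^ ρ) (Icc u v) :=
    hf.mul (hg.rpow continuousOn_const fun x _ => Or.inr hρ)
  obtain ⟨m, hm0, hmM, hm⟩ : ∃ m : ℝ, 0 ≤ m ∧ m < M ∧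
      ∀ x ∈ Icc u v, δ ≤ |x - t| → f x * g x ^ ρ ≤ m := by
    rcases (Icc u v ∩ {x | δ ≤ |x - t|}).eq_empty_or_nonempty with he | hne
    · refine ⟨0, le_rfl, hMpos, fun x hx hxt => ?_⟩
      have : x ∈ Icc u v ∩ {x | δ ≤ |x - t|} := ⟨hx, hxt⟩
      rw [he] at this
      exact this.elim
    · obtain ⟨y, hy, hymax⟩ := hS.exists_isMaxOn hne (hfg.mono inter_subset_left)
      refine ⟨f y * g y ^ ρ, mul_nonneg (hf0 y hy.1) (Real.rpow_nonneg (hg0 y hy.1) _),
        hmax y hy.1 ?_, fun x hx hxt => hymax ⟨hx, hxt⟩⟩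
      rintro rfl
      have := hy.2
      simp only [mem_setOf_eq, sub_self, abs_zero] at this
      linarith
  set ε : ℝ := (M - m) / 3 with hε
  have hεpos : 0 < ε := by rw [hε]; linarith
  obtain ⟨η, hη, hη'⟩ := Metric.uniformContinuousOn_iff.1 hunif ε hεpos
  have hρmem : ρ ∈ Icc (ρ / 2) (2 * ρ) := ⟨by linarith, by linarith⟩
  refine ⟨m + ε, M - ε, η / 2, by linarith, by rw [hε]; linarith, by linarith, ?_⟩
  have h1 : ∀ᶠ n in atTop, |(l n : ℝ) / (k n : ℝ) - ρ| < min η (ρ / 2) := by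
    have := (Metric.tendsto_nhds.1 hkl) (min η (ρ / 2)) (lt_min hη (by linarith))
    filter_upwards [this] with n hn
    rwa [Real.dist_eq] at hn
  have h2 : ∀ᶠ n in atTop, 0 < k n := hk.eventually_gt_atTop 0
  filter_upwards [h1, h2] with n hn hkn
  have hnη : |(l n : ℝ) / (k n : ℝ) - ρ| < η := lt_of_lt_of_le hn (min_le_left _ _)
  have hnρ : |(l n : ℝ) / (k n : ℝ) - ρ| < ρ / 2 := lt_of_lt_of_le hn (min_le_right _ _)
  have hmem : (l n : ℝ) / (k n : ℝ) ∈ Icc (ρ / 2) (2 * ρ) := by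
    rw [abs_lt] at hnρ
    exact ⟨by linarith, by linarith⟩
  constructor
  · intro x hx hxt
    rw [pow_eq _ _ _ _ (hg0 x hx) hkn]
    refine pow_le_pow_left₀ (mul_nonneg (hf0 x hx) (Real.rpow_nonneg (hg0 x hx) _)) ?_ _
    have hd := hη' (x, (l n : ℝ) / (k n : ℝ)) ⟨hx, hmem⟩ (x, ρ) ⟨hx, hρmem⟩ (by
      rw [Prod.dist_eq]
      simp only [dist_self, Real.dist_eq]
      exact max_lt hη hnη)
    rw [Real.dist_eq, abs_lt] at hd
    have := hm x hx hxt
    simp only at hd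
    linarith [hd.2]
  · intro x hx hxt
    rw [pow_eq _ _ _ _ (hg0 x hx) hkn]
    refine pow_le_pow_left₀ (by rw [hε]; linarith) ?_ _
    have hd := hη' (x, (l n : ℝ) / (k n : ℝ)) ⟨hx, hmem⟩ (t, ρ) ⟨ht, hρmem⟩ (by
      rw [Prod.dist_eq]
      simp only [Real.dist_eq]
      exact max_lt (by linarith) hnη)
    rw [Real.dist_eq, abs_lt] at hd
    simp only at hd
    linarith [hd.1]

end Pool.Agent.Q178.CPX.ConcA
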