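import Pool.Agent.Q178.CPX.Stmts

namespace Pool.Agent.Q178.CPX.Final
open Filter Topology Set Pool.Agent.Q178.CPX

theorem main (hMain : TaskMain) :
    ∃ X : Set ℝ, IsCompact X ∧ ¬ IsConnected X ∧ X.ncard = 4 ∧
      ∀ f : ℝ → ℝ, ContinuousOn f X → ∀ ε > 0, ∃ p : Polynomial ℝ,
        (∀ z : ℂ, Polynomial.aeval z (Polynomial.derivative p) = 0 → ∃ x ∈ X, z = (x : ℂ)) ∧
        ∀ x ∈ X, |p.eval x - f x| < ε := by
  obtain ⟨a, ha, ha1, h⟩ := hMain
  refine ⟨{-1, -a, a, 1}, (Set.toFinite _).isCompact, ?_, ?_, fun f _ ε hε => h f ε hε⟩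
  · intro hc
    have hsub := hc.isPreconnected.Icc_subset (a := a) (b := 1) (by simp) (by simp)
    have hmem : (a + 1) / 2 ∈ ({-1, -a, a, 1} : Set ℝ) := hsub ⟨by linarith, by linarith⟩
    simp only [mem_insert_iff, mem_singleton_iff] at hmem
    rcases hmem with h | h | h | h <;> linarith
  · have h1 : (-1 : ℝ) ∉ ({-a, a, 1} : Set ℝ) := by
      simp only [mem_insert_iff, mem_singleton_iff, not_or]
      refine ⟨?_, ?_, ?_⟩ <;> intro h <;> linarith
    have h2 : (-a : ℝ) ∉ ({a, 1} : Set ℝ) := by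
      simp only [mem_insert_iff, mem_singleton_iff, not_or]
      refine ⟨?_, ?_⟩ <;> intro h <;> linarith
    have h3 : (a : ℝ) ∉ ({1} : Set ℝ) := by
      simp only [mem_singleton_iff]
      intro h; linarith
    rw [ncard_insert_of_notMem h1, ncard_insert_of_notMem h2, ncard_insert_of_notMem h3,
      ncard_singleton]

end Pool.Agent.Q178.CPX.Final
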