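import Pool.Agent.Q178.CPX.ConcA

/-! Crowd lemma of helper178's blueprint `CPX` (by helper215). -/

namespace Pool.Agent.Q178.CPX.Inc3
open Filter Topology Set Pool.Agent.Q178.CPX MeasureTheory

theorem wt_split (a : ℝ) (k l m1 m2 m3 m4 : ℕ) (x : ℝ) :
    wt a (k + m1) (l + m2) (l + m3) (k + m4) x =
      wt a m1 m2 m3 m4 x * (|x ^ 2 - 1| ^ k * |x ^ 2 - a ^ 2| ^ l) := by
  have h1 : |x ^ 2 - 1| = |x + 1| * |x - 1| := by rw [← abs_mul]; congr 1; ring
  have h2 : |x ^ 2 - a ^ 2| = |x + a| * |x - a| := by rw [← abs_mul]; congr 1; ring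
  rw [h1, h2]
  unfold wt
  simp only [pow_add, mul_pow]
  ring

theorem wt_split0 (a : ℝ) (k l : ℕ) (x : ℝ) :
    wt a k l l k x = |x ^ 2 - 1| ^ k * |x ^ 2 - a ^ 2| ^ l := by
  have := wt_split a k l 0 0 0 0 x
  simp only [Nat.add_zero] at this
  rw [this]
  simp [wt]

theorem continuous_wt (a : ℝ) (i j k l : ℕ) : Continuous (wt a i j k l) := by
  unfold wt
  fun_prop

theorem main (hB : TaskConcB) (hM : TaskMaxSide) : TaskInc3 := by
  intro a ρ s ha has hs hρ hρs k l hk hkl m1 m2 m3 m4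
  have ha1 : a < 1 := has.trans hs
  have hs0 : 0 < s := ha.trans has
  set f : ℝ → ℝ := fun x => 1 - x ^ 2 with hf
  set g : ℝ → ℝ := fun x => x ^ 2 - a ^ 2 with hg
  have hfc : Continuous f := by rw [hf]; fun_prop
  have hgc : Continuous g := by rw [hg]; fun_prop
  have hf0 : ∀ x ∈ Icc a 1, 0 ≤ f x := by
    intro x hx
    simp only [hf]
    nlinarith [hx.1, hx.2]
  have hg0 : ∀ x ∈ Icc a 1, 0 ≤ g x := by
    intro x hx
    simp only [hg]
    nlinarith [hx.1, hx.2]
  have hA := ConcA.main a 1 s ρ f g k l ha1 ⟨has.le, hs.le⟩ hρ hfc.continuousOn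
    hgc.continuousOn hf0 hg0 (by simp only [hf]; nlinarith) (by simp only [hg]; nlinarith)
    (fun x hx hxs => hM a ρ s ha has hs hρ hρs x hx hxs) hk hkl
  have hB' := hB a 1 s (wt a m1 m2 m3 m4) (fun n x => f x ^ k n * g x ^ l n) k ha1
    ⟨has.le, hs.le⟩ (continuous_wt a m1 m2 m3 m4).continuousOn
    (fun n => ((hfc.pow _).mul (hgc.pow _)).continuousOn)
    (fun n x hx => mul_nonneg (pow_nonneg (hf0 x hx) _) (pow_nonneg (hg0 x hx) _)) hk hA
  refine hB'.congr fun n => ?_
  have hab : ∀ x ∈ Icc a 1, |x ^ 2 - 1| = f x ∧ |x ^ 2 - a ^ 2| = g x := by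
    intro x hx
    constructor
    · rw [abs_of_nonpos (by have := hf0 x hx; simp only [hf] at this; linarith)]
      simp only [hf]; ring
    · rw [abs_of_nonneg (by have := hg0 x hx; simp only [hg] at this; linarith)]
  congr 1
  · unfold J3
    refine intervalIntegral.integral_congr fun x hx => ?_
    rw [uIcc_of_le ha1.le] at hx
    rw [wt_split, (hab x hx).1, (hab x hx).2]
  · unfold J3
    refine intervalIntegral.integral_congr fun x hx => ?_
    rw [uIcc_of_le ha1.le] at hx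
    rw [wt_split0, (hab x hx).1, (hab x hx).2]

/-- the task `Inc2`. -/
theorem inc2 (hB : TaskConcB) (hM : TaskMaxMid) : TaskInc2 := by
  intro a ρ ha ha1 hρ k l hk hkl m1 m2 m3 m4
  set f : ℝ → ℝ := fun x => 1 - x ^ 2 with hf
  set g : ℝ → ℝ := fun x => a ^ 2 - x ^ 2 with hg
  have hfc : Continuous f := by rw [hf]; fun_prop
  have hgc : Continuous g := by rw [hg]; fun_prop
  have hf0 : ∀ x ∈ Icc (-a) a, 0 ≤ f x := by
    intro x hx
    simp only [hf]
    nlinarith [hx.1, hx.2]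
  have hg0 : ∀ x ∈ Icc (-a) a, 0 ≤ g x := by
    intro x hx
    simp only [hg]
    nlinarith [hx.1, hx.2]
  have h0 : (0 : ℝ) ∈ Icc (-a) a := ⟨by linarith, by linarith⟩
  have hlt : -a < a := by linarith
  have hA := ConcA.main (-a) a 0 ρ f g k l hlt h0 hρ hfc.continuousOn
    hgc.continuousOn hf0 hg0 (by simp only [hf]; norm_num) (by simp only [hg]; nlinarith)
    (fun x hx hxs => hM a ρ ha ha1 hρ x hx hxs) hk hkl
  have hB' := hB (-a) a 0 (wt a m1 m2 m3 m4) (fun n x => f x ^ k n * g x ^ l n) k hlt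
    h0 (continuous_wt a m1 m2 m3 m4).continuousOn
    (fun n => ((hfc.pow _).mul (hgc.pow _)).continuousOn)
    (fun n x hx => mul_nonneg (pow_nonneg (hf0 x hx) _) (pow_nonneg (hg0 x hx) _)) hk hA
  refine hB'.congr fun n => ?_
  have hab : ∀ x ∈ Icc (-a) a, |x ^ 2 - 1| = f x ∧ |x ^ 2 - a ^ 2| = g x := by
    intro x hx
    constructor
    · rw [abs_of_nonpos (by have := hf0 x hx; simp only [hf] at this; linarith)]
      simp only [hf]; ring
    · rw [abs_of_nonpos (by have := hg0 x hx; simp only [hg] at this; linarith)]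
      simp only [hg]; ring
  congr 1
  · unfold J2
    refine intervalIntegral.integral_congr fun x hx => ?_
    rw [uIcc_of_le hlt.le] at hx
    rw [wt_split, (hab x hx).1, (hab x hx).2]
  · unfold J2
    refine intervalIntegral.integral_congr fun x hx => ?_
    rw [uIcc_of_le hlt.le] at hx
    rw [wt_split0, (hab x hx).1, (hab x hx).2]

end Pool.Agent.Q178.CPX.Inc3
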