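import Pool.Agent.Q178.CPX.Stmts

namespace Pool.Agent.Q178.CPX.Shift178
open Filter Topology Set Pool.Agent.Q178.CPX

set_option maxHeartbeats 2000000 in
theorem main (hInc : TaskInc) : TaskShift := by
  intro a ρ s hpar k l hk hkl m1 m2 m3 m4
  have hρ0 : 0 < ρ := hpar.2.2.2.1
  set L : ℕ := m1.natAbs + m2.natAbs + m3.natAbs + m4.natAbs with hL
  have hl : Tendsto l atTop atTop := by
    have h := hkl.pos_mul_atTop hρ0 (tendsto_natCast_atTop_atTop.comp hk)
    have h' : Tendsto (fun n => (l n : ℝ)) atTop atTop := by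
      refine h.congr' ?_
      filter_upwards [hk.eventually (eventually_gt_atTop 0)] with n hn
      have : (k n : ℝ) ≠ 0 := by exact_mod_cast hn.ne'
      simp only [Function.comp]
      field_simp
    exact tendsto_natCast_atTop_iff.mp h'
  have hkR : Tendsto (fun n => (k n : ℝ)) atTop atTop := tendsto_natCast_atTop_atTop.comp hk
  have hk' : Tendsto (fun n => k n - L) atTop atTop := by
    refine tendsto_atTop.mpr fun b => ?_
    filter_upwards [hk.eventually (eventually_ge_atTop (b + L))] with n hn
    omega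
  have hkl' : Tendsto (fun n => ((l n - L : ℕ) : ℝ) / ((k n - L : ℕ) : ℝ)) atTop (𝓝 ρ) := by
    have h1 : Tendsto (fun n => (L : ℝ) / (k n : ℝ)) atTop (𝓝 0) := hkR.const_div_atTop _
    have h2 : Tendsto (fun n => ((l n : ℝ) / (k n : ℝ) - (L : ℝ) / (k n : ℝ)) /
        (1 - (L : ℝ) / (k n : ℝ))) atTop (𝓝 ((ρ - 0) / (1 - 0))) :=
      (hkl.sub h1).div (h1.const_sub 1) (by norm_num)
    simp only [sub_zero, div_one] at h2
    refine h2.congr' ?_
    filter_upwards [hk.eventually (eventually_gt_atTop L), hl.eventually (eventually_gt_atTop L)]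
      with n hn hn2
    rw [Nat.cast_sub hn.le, Nat.cast_sub hn2.le]
    have h3 : (k n : ℝ) ≠ 0 := by
      have : 0 < k n := by omega
      exact_mod_cast this.ne'
    have h4 : (k n : ℝ) - L ≠ 0 := by
      have : (L : ℝ) < k n := by exact_mod_cast hn
      exact (sub_pos.mpr this).ne'
    have h5 : (1 : ℝ) - L / k n ≠ 0 := by
      have : (1 : ℝ) - L / k n = (k n - L) / k n := by field_simp
      rw [this]
      exact div_ne_zero h4 h3
    field_simp
  obtain ⟨a1, a3⟩ := hInc a ρ s hpar _ _ hk' hkl' L L L L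
  obtain ⟨b1, b3⟩ := hInc a ρ s hpar _ _ hk' hkl' (m1 + L).toNat (m2 + L).toNat (m3 + L).toNat
    (m4 + L).toNat
  have c1 : (((m1 + L).toNat : ℕ) : ℝ) = m1 + L := by
    have : (((m1 + L).toNat : ℕ) : ℤ) = m1 + L := Int.toNat_of_nonneg (by omega)
    exact_mod_cast this
  have c2 : (((m2 + L).toNat : ℕ) : ℝ) = m2 + L := by
    have : (((m2 + L).toNat : ℕ) : ℤ) = m2 + L := Int.toNat_of_nonneg (by omega)
    exact_mod_cast this
  have c3 : (((m3 + L).toNat : ℕ) : ℝ) = m3 + L := by
    have : (((m3 + L).toNat : ℕ) : ℤ) = m3 + L := Int.toNat_of_nonneg (by omega)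
    exact_mod_cast this
  have c4 : (((m4 + L).toNat : ℕ) : ℝ) = m4 + L := by
    have : (((m4 + L).toNat : ℕ) : ℤ) = m4 + L := Int.toNat_of_nonneg (by omega)
    exact_mod_cast this
  rw [c1, c2, c3, c4] at b1 b3
  constructor
  · have h := b1.sub a1
    have hval : LA s * (m1 + L) + LC a s * (m2 + L) + LD a s * (m3 + L) + LB s * (m4 + L) -
        (LA s * L + LC a s * L + LD a s * L + LB s * L) =
        LA s * m1 + LC a s * m2 + LD a s * m3 + LB s * m4 := by ring
    rw [hval] at h
    refine h.congr' ?_
    filter_upwards [hk.eventually (eventually_gt_atTop L), hl.eventually (eventually_gt_atTop L)]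
      with n hn hn2
    have e1 : k n - L + (m1 + L).toNat = (k n + m1).toNat := by omega
    have e2 : l n - L + (m2 + L).toNat = (l n + m2).toNat := by omega
    have e3 : l n - L + (m3 + L).toNat = (l n + m3).toNat := by omega
    have e4 : k n - L + (m4 + L).toNat = (k n + m4).toNat := by omega
    have e5 : k n - L + L = k n := by omega
    have e6 : l n - L + L = l n := by omega
    rw [e1, e2, e3, e4, e5, e6]
    ring
  · have h := b3.sub a3
    have hval : LB s * (m1 + L) + LD a s * (m2 + L) + LC a s * (m3 + L) + LA s * (m4 + L) -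
        (LB s * L + LD a s * L + LC a s * L + LA s * L) =
        LB s * m1 + LD a s * m2 + LC a s * m3 + LA s * m4 := by ring
    rw [hval] at h
    refine h.congr' ?_
    filter_upwards [hk.eventually (eventually_gt_atTop L), hl.eventually (eventually_gt_atTop L)]
      with n hn hn2
    have e1 : k n - L + (m1 + L).toNat = (k n + m1).toNat := by omega
    have e2 : l n - L + (m2 + L).toNat = (l n + m2).toNat := by omega
    have e3 : l n - L + (m3 + L).toNat = (l n + m3).toNat := by omega
    have e4 : k n - L + (m4 + L).toNat = (k n + m4).toNat := by omega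
    have e5 : k n - L + L = k n := by omega
    have e6 : l n - L + L = l n := by omega
    rw [e1, e2, e3, e4, e5, e6]
    ring

end Pool.Agent.Q178.CPX.Shift178
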