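import Mathlib

/-! Blueprint (helper178) for MP_57aba6_an, Q2: the four point set `{-1, -a, a, 1}` satisfies
`CP(X) = C(X)` for a suitable `a`.  Every `TaskX` below is a small independent lemma. -/

namespace Pool.Agent.Q178.CPX
open Filter Topology Set

noncomputable section

/-- the weight `|x+1|^i |x+a|^j |x-a|^k |x-1|^l` -/
def wt (a : ℝ) (i j k l : ℕ) (x : ℝ) : ℝ := |x + 1| ^ i * |x + a| ^ j * |x - a| ^ k * |x - 1| ^ l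

/-- the signed weight -/
def sw (a : ℝ) (i j k l : ℕ) (x : ℝ) : ℝ := (x + 1) ^ i * (x + a) ^ j * (x - a) ^ k * (x - 1) ^ l

def J1 (a : ℝ) (i j k l : ℕ) : ℝ := ∫ x in (-1 : ℝ)..(-a), wt a i j k l x
def J2 (a : ℝ) (i j k l : ℕ) : ℝ := ∫ x in (-a)..a, wt a i j k l x
def J3 (a : ℝ) (i j k l : ℕ) : ℝ := ∫ x in a..(1 : ℝ), wt a i j k l x
def F1 (a : ℝ) (i j k l : ℕ) : ℝ := Real.log (J1 a i j k l / J2 a i j k l)
def F3 (a : ℝ) (i j k l : ℕ) : ℝ := Real.log (J3 a i j k l / J2 a i j k l)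
/-- the ratio for the symmetric exponents `(k, l, l, k)` -/
def r (a : ℝ) (k l : ℕ) : ℝ := J3 a k l l k / J2 a k l l k

def LA (s : ℝ) : ℝ := Real.log (1 - s)
def LB (s : ℝ) : ℝ := Real.log (1 + s)
def LC (a s : ℝ) : ℝ := Real.log ((s - a) / a)
def LD (a s : ℝ) : ℝ := Real.log ((s + a) / a)

/-- `(a, s)` is balanced with ratio `ρ`: the maxima of `(1-x²)|x²-a²|^ρ` on `[a,1]` (at `s`) and on
`[-a,a]` (at `0`) agree. -/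
def Par (a ρ s : ℝ) : Prop :=
  0 < a ∧ a < s ∧ s < 1 ∧ 0 < ρ ∧ ρ * (1 - s ^ 2) = s ^ 2 - a ^ 2 ∧
    Real.log (1 - s ^ 2) + ρ * Real.log ((s ^ 2 - a ^ 2) / a ^ 2) = 0

/-- positivity of the three integrals (`intervalIntegral_pos_of_pos_on`). -/
def TaskPos : Prop := ∀ a : ℝ, 0 < a → a < 1 → ∀ i j k l : ℕ,
  0 < J1 a i j k l ∧ 0 < J2 a i j k l ∧ 0 < J3 a i j k l

/-- substitution `x ↦ -x` (`intervalIntegral.integral_comp_neg`). -/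
def TaskSym : Prop := ∀ a : ℝ, ∀ i j k l : ℕ, J1 a i j k l = J3 a l k j i

/-- signs of the polynomial on the three intervals. -/
def TaskSign : Prop := ∀ a : ℝ, 0 < a → a < 1 → ∀ i j k l : ℕ,
  (∫ x in (-1 : ℝ)..(-a), sw a i j k l x) = (-1) ^ (j + k + l) * J1 a i j k l ∧
  (∫ x in (-a)..a, sw a i j k l x) = (-1) ^ (k + l) * J2 a i j k l ∧
  (∫ x in a..(1 : ℝ), sw a i j k l x) = (-1) ^ l * J3 a i j k l

/-- every real polynomial has an antiderivative. -/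
def TaskAnti : Prop := ∀ q : Polynomial ℝ, ∃ p : Polynomial ℝ, Polynomial.derivative p = q

/-- Uniform estimate for `f^k g^l` with `l/k → ρ`.  Hint: for `k > 0` one has
`f^k g^l = (f * g^(l/k))^k`; the function `(x, τ) ↦ f x * (g x)^τ` is continuous on the compact set
`[u,v] × [ρ/2, 2ρ]`, hence uniformly continuous; `q1 < q2` are values slightly larger than the
maximum of `f g^ρ` on `|x-t| ≥ δ` and slightly smaller than its value at `t`. -/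
def TaskConcA : Prop := ∀ (u v t ρ : ℝ) (f g : ℝ → ℝ) (k l : ℕ → ℕ), u < v → t ∈ Icc u v → 0 < ρ →
  ContinuousOn f (Icc u v) → ContinuousOn g (Icc u v) →
  (∀ x ∈ Icc u v, 0 ≤ f x) → (∀ x ∈ Icc u v, 0 ≤ g x) → 0 < f t → 0 < g t →
  (∀ x ∈ Icc u v, x ≠ t → f x * g x ^ ρ < f t * g t ^ ρ) →
  Tendsto k atTop atTop → Tendsto (fun n => (l n : ℝ) / (k n : ℝ)) atTop (𝓝 ρ) →
  ∀ δ > 0, ∃ q1 q2 δ' : ℝ, 0 ≤ q1 ∧ q1 < q2 ∧ 0 < δ' ∧ ∀ᶠ n in atTop,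
    (∀ x ∈ Icc u v, δ ≤ |x - t| → f x ^ k n * g x ^ l n ≤ q1 ^ k n) ∧
    (∀ x ∈ Icc u v, |x - t| ≤ δ' → q2 ^ k n ≤ f x ^ k n * g x ^ l n)

/-- Concentration.  Hint: split the integral of `|w - w t| h` at `|x-t| < δ`; the outer part is at
most `2 sup|w| (v-u) q1^k`, the total mass is at least `min δ' (v-u)/2 * q2^k`. -/
def TaskConcB : Prop := ∀ (u v t : ℝ) (w : ℝ → ℝ) (h : ℕ → ℝ → ℝ) (k : ℕ → ℕ), u < v →
  t ∈ Icc u v → ContinuousOn w (Icc u v) → (∀ n, ContinuousOn (h n) (Icc u v)) →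
  (∀ n, ∀ x ∈ Icc u v, 0 ≤ h n x) → Tendsto k atTop atTop →
  (∀ δ > 0, ∃ q1 q2 δ' : ℝ, 0 ≤ q1 ∧ q1 < q2 ∧ 0 < δ' ∧ ∀ᶠ n in atTop,
    (∀ x ∈ Icc u v, δ ≤ |x - t| → h n x ≤ q1 ^ k n) ∧
    (∀ x ∈ Icc u v, |x - t| ≤ δ' → q2 ^ k n ≤ h n x)) →
  Tendsto (fun n => (∫ x in u..v, w x * h n x) / ∫ x in u..v, h n x) atTop (𝓝 (w t))

/-- unique maximum on `[a,1]`.  Hint: with `y = x²`, if both factors are positive then
`log((1-y)/(1-s²)) + ρ log((y-a²)/(s²-a²)) < (s²-y)/(1-s²) + ρ(y-s²)/(s²-a²) = 0` by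
`Real.add_one_lt_exp`/`Real.log_lt_sub_one_of_pos`; otherwise the left side is `0`. -/
def TaskMaxSide : Prop := ∀ a ρ s : ℝ, 0 < a → a < s → s < 1 → 0 < ρ →
  ρ * (1 - s ^ 2) = s ^ 2 - a ^ 2 → ∀ x ∈ Icc a 1, x ≠ s →
  (1 - x ^ 2) * (x ^ 2 - a ^ 2) ^ ρ < (1 - s ^ 2) * (s ^ 2 - a ^ 2) ^ ρ

/-- unique maximum on `[-a,a]` at `0`. -/
def TaskMaxMid : Prop := ∀ a ρ : ℝ, 0 < a → a < 1 → 0 < ρ → ∀ x ∈ Icc (-a) a, x ≠ 0 →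
  (1 - x ^ 2) * (a ^ 2 - x ^ 2) ^ ρ < (1 - (0 : ℝ) ^ 2) * (a ^ 2 - (0 : ℝ) ^ 2) ^ ρ

/-- from TaskConcA, TaskConcB, TaskMaxSide with `f = 1-x²`, `g = x²-a²`, `w = wt a m1 m2 m3 m4`
(on `[a,1]`: `wt a (k+m1) (l+m2) (l+m3) (k+m4) = wt a m1 m2 m3 m4 * ((1-x²)^k (x²-a²)^l)`). -/
def TaskInc3 : Prop := ∀ a ρ s : ℝ, 0 < a → a < s → s < 1 → 0 < ρ →
  ρ * (1 - s ^ 2) = s ^ 2 - a ^ 2 → ∀ k l : ℕ → ℕ, Tendsto k atTop atTop →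
  Tendsto (fun n => (l n : ℝ) / (k n : ℝ)) atTop (𝓝 ρ) → ∀ m1 m2 m3 m4 : ℕ,
  Tendsto (fun n => J3 a (k n + m1) (l n + m2) (l n + m3) (k n + m4) /
    J3 a (k n) (l n) (l n) (k n)) atTop (𝓝 (wt a m1 m2 m3 m4 s))

/-- from TaskConcA, TaskConcB, TaskMaxMid, in the same way on `[-a,a]`. -/
def TaskInc2 : Prop := ∀ a ρ : ℝ, 0 < a → a < 1 → 0 < ρ → ∀ k l : ℕ → ℕ,
  Tendsto k atTop atTop → Tendsto (fun n => (l n : ℝ) / (k n : ℝ)) atTop (𝓝 ρ) →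
  ∀ m1 m2 m3 m4 : ℕ,
  Tendsto (fun n => J2 a (k n + m1) (l n + m2) (l n + m3) (k n + m4) /
    J2 a (k n) (l n) (l n) (k n)) atTop (𝓝 (wt a m1 m2 m3 m4 0))

/-- from TaskPos, TaskSym, TaskInc3, TaskInc2 (take logarithms). -/
def TaskInc : Prop := ∀ a ρ s : ℝ, Par a ρ s → ∀ k l : ℕ → ℕ, Tendsto k atTop atTop →
  Tendsto (fun n => (l n : ℝ) / (k n : ℝ)) atTop (𝓝 ρ) → ∀ m1 m2 m3 m4 : ℕ,
  Tendsto (fun n => F1 a (k n + m1) (l n + m2) (l n + m3) (k n + m4) -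
    F1 a (k n) (l n) (l n) (k n)) atTop
    (𝓝 (LA s * m1 + LC a s * m2 + LD a s * m3 + LB s * m4)) ∧
  Tendsto (fun n => F3 a (k n + m1) (l n + m2) (l n + m3) (k n + m4) -
    F3 a (k n) (l n) (l n) (k n)) atTop
    (𝓝 (LB s * m1 + LD a s * m2 + LC a s * m3 + LA s * m4))

/-- from TaskInc, for integer increments: apply it to the base `(k-L, l-L)` with the increments
`L` and `m + L`, where `L` is larger than all `|m_i|`, and subtract. -/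
def TaskShift : Prop := ∀ a ρ s : ℝ, Par a ρ s → ∀ k l : ℕ → ℕ, Tendsto k atTop atTop →
  Tendsto (fun n => (l n : ℝ) / (k n : ℝ)) atTop (𝓝 ρ) → ∀ m1 m2 m3 m4 : ℤ,
  Tendsto (fun n => F1 a (k n + m1).toNat (l n + m2).toNat (l n + m3).toNat (k n + m4).toNat -
    F1 a (k n) (l n) (l n) (k n)) atTop
    (𝓝 (LA s * m1 + LC a s * m2 + LD a s * m3 + LB s * m4)) ∧
  Tendsto (fun n => F3 a (k n + m1).toNat (l n + m2).toNat (l n + m3).toNat (k n + m4).toNat -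
    F3 a (k n) (l n) (l n) (k n)) atTop
    (𝓝 (LB s * m1 + LD a s * m2 + LC a s * m3 + LA s * m4))

/-- `J3 ≤ (1-a)(1-a²)^k` and `J2 ≥ 2a(1-a²)^k` for `l = 0`. -/
def TaskC0 : Prop := ∀ a : ℝ, 0 < a → a < 1 → ∃ K : ℝ, ∀ k : ℕ, r a k 0 ≤ K

/-- fixed `k`: `J2 ≤ 2a·a^(2l)`; `J3 ≥ c (b²-a²)^l` where `b < 1`, `b² > 2a²` (integrate over
`[b, (1+b)/2]`). -/
def TaskC1 : Prop := ∀ a : ℝ, 0 < a → 2 * a ^ 2 < 1 → ∀ k : ℕ,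
  Tendsto (fun l => r a k l) atTop atTop

/-- `J3(k,l+1) ≤ (1-a²) J3(k,l)`; `J2(k,l+1) ≥ (3a²/8) J2(k,l)`, since the integrand
`(1-x²)^k (a²-x²)^l` is even and decreasing in `|x|`, so half of the mass is in `[-a/2,a/2]`. -/
def TaskC2 : Prop := ∀ a : ℝ, 0 < a → a < 1 → ∃ K : ℝ, 0 < K ∧ ∀ k l : ℕ,
  r a k (l + 1) ≤ K * r a k l

/-- from TaskC0, TaskC1, TaskC2: the first `l` with `r a k l ≥ 1`. -/
def TaskChoice : Prop := ∀ a : ℝ, 0 < a → 2 * a ^ 2 < 1 → ∃ K : ℝ, ∀ k : ℕ, ∃ l : ℕ,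
  1 ≤ r a k l ∧ r a k l ≤ K

/-- Hint: for `y = x² ∈ [a²,1]`, `θ = l/(kρ) ≤ 1`:
`(1-y)((y-a²)/a²)^(l/k) = (1-y)^(1-θ) [(1-y)((y-a²)/a²)^ρ]^θ ≤ (1-a²)^(1-θ)` (the bracket is `≤ 1` by
TaskMaxSide and Par), so `J3 ≤ a^(2l) (1-a²)^(k-l/ρ)`; `J2 ≥ 2δ a^(2l) (1-δ²/a²)^(k+l)`; fix a small
`δ` depending on `η`. -/
def TaskLow : Prop := ∀ a ρ s : ℝ, Par a ρ s → ∀ η > 0, ∀ᶠ k : ℕ in atTop, ∀ l : ℕ,
  (l : ℝ) ≤ (ρ - η) * k → r a k l < 1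

/-- Hint: `((s²-a²)/a²) = (1-s²)^(-1/ρ)` by Par; near `s` one has `1-x² ≥ (1-s²)(1-ε)` and
`x²-a² ≥ (s²-a²)(1-ε)`, so `J3 ≥ δ a^(2l) (1-ε)^(k+l) (1-s²)^(k-l/ρ)`, and `J2 ≤ 2a a^(2l)`;
`l/ρ - k ≥ c (k+l)` for `l ≥ (ρ+η)k`. -/
def TaskUp : Prop := ∀ a ρ s : ℝ, Par a ρ s → ∀ η > 0, ∀ K : ℝ, ∀ᶠ k : ℕ in atTop, ∀ l : ℕ,
  (ρ + η) * k ≤ (l : ℝ) → K < r a k l

/-- from TaskLow and TaskUp. -/
def TaskRho : Prop := ∀ a ρ s : ℝ, Par a ρ s → ∀ (K : ℝ) (l : ℕ → ℕ),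
  (∀ k, 1 ≤ r a k (l k) ∧ r a k (l k) ≤ K) →
  Tendsto (fun k : ℕ => (l k : ℝ) / (k : ℝ)) atTop (𝓝 ρ)

/-- one dimensional Kronecker (`dense_addSubgroupClosure_pair_iff`). -/
def TaskDense : Prop := ∀ x y : ℝ, Irrational (x / y) → ∀ T : ℝ, ∀ ε > 0, ∃ p q : ℤ,
  |x * p + y * q - T| < ε

/-- from TaskDense: use `m1 = P+P'`, `m4 = P-P'`, `m2 = e2+Q+Q'`, `m3 = e3+Q-Q'` with `P,P',Q,Q'`
even; the sum of the two forms only sees `P,Q`, the difference only `P',Q'`. -/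
def TaskKron : Prop := ∀ A B C D : ℝ, Irrational ((A + B) / (C + D)) →
  Irrational ((A - B) / (C - D)) → ∀ (e2 e3 : ℤ) (T1 T3 : ℝ), ∀ ε > 0, ∃ m1 m2 m3 m4 : ℤ,
  Even (m2 - e2) ∧ Even (m3 - e3) ∧ |A * m1 + C * m2 + D * m3 + B * m4 - T1| < ε ∧
  |B * m1 + D * m2 + C * m3 + A * m4 - T3| < ε

/-- intermediate value theorem in `θ`: with `s = tanh θ`, `q = tanh (cθ)`, `a = s q` the function
`log(1-s²) + (s²-a²)/(1-s²) * log((s²-a²)/a²)` is positive when `q² ≤ 1/10`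
(`log(1-s²) ≥ -s²/(1-s²)`, `(1-q²) log((1-q²)/q²) ≥ 0.9 log 9 > 1`) and negative when `q² ≥ 1/2`. -/
def TaskIVT : Prop := ∀ c : ℝ, 0 < c → ∃ θ : ℝ, 0 < θ ∧ ∃ ρ : ℝ,
  Par (Real.tanh θ * Real.tanh (c * θ)) ρ (Real.tanh θ)

/-- uniqueness.  Hint: with `y = 1-s²` Par gives `s²-a² = ρ y`, `a² = ρ y · y^(1/ρ)`, hence
`1 = (1+ρ) y + ρ y^(1+1/ρ)`, and the right side is strictly increasing in `y > 0`. -/
def TaskInj : Prop := ∀ a a' ρ s s' : ℝ, Par a ρ s → Par a' ρ s' → a = a' ∧ s = s'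

/-- from TaskIVT and TaskInj: `c = log((s+a)/(s-a))/log((1+s)/(1-s))` is recovered from `(a,s)`,
hence from `ρ`; the irrational `c > 0` are uncountable, so some irrational `c` has an irrational
`ρ`.  The second ratio equals `1/c` because `LA - LB = -log((1+s)/(1-s)) = -2θ` and
`LC - LD = -log((s+a)/(s-a)) = -2cθ`; the first equals `-ρ` by Par. -/
def TaskIrr : Prop := ∃ a ρ s : ℝ, Par a ρ s ∧ Irrational ρ ∧
  Irrational ((LA s + LB s) / (LC a s + LD a s)) ∧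
  Irrational ((LA s - LB s) / (LC a s - LD a s))

/-- a subsequence with convergent values and constant parity. -/
def TaskSub : Prop := ∀ (G : ℕ → ℝ) (l : ℕ → ℕ) (K : ℝ), (∀ n, 0 ≤ G n ∧ G n ≤ K) →
  ∃ φ : ℕ → ℕ, StrictMono φ ∧ ∃ g : ℝ, Tendsto (fun n => G (φ n)) atTop (𝓝 g) ∧
    ∃ e : ℕ, ∀ n, l (φ n) % 2 = e

/-- the density of the logarithmic ratios (assembly: Choice, Rho, Sub, Kron, Shift, Irr). -/
def TaskTriple : Prop := ∃ a : ℝ, 0 < a ∧ a < 1 ∧ ∀ (e2 e3 : ℕ) (T1 T3 : ℝ), ∀ ε > 0,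
  ∃ i j k l : ℕ, j % 2 = e2 % 2 ∧ k % 2 = e3 % 2 ∧ |F1 a i j k l - T1| < ε ∧
    |F3 a i j k l - T3| < ε

/-- All complex critical points of `p` lie in `X`. -/
def CritIn (X : Set ℝ) (p : Polynomial ℝ) : Prop :=
  ∀ z : ℂ, Polynomial.aeval z (Polynomial.derivative p) = 0 → ∃ x ∈ X, z = (x : ℂ)

/-- from TaskAnti: the polynomial with derivative `sw`, and its critical points. -/
def TaskPoly : Prop := ∀ a : ℝ, ∀ i j k l : ℕ, ∃ p : Polynomial ℝ,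
  (∀ x y : ℝ, p.eval y - p.eval x = ∫ t in x..y, sw a i j k l t) ∧
  ∀ c d : ℝ, c ≠ 0 → CritIn {-1, -a, a, 1} (Polynomial.C c * p + Polynomial.C d)

/-- from TaskTriple, TaskSign, TaskPos: approximation of the three increments. -/
def TaskApprox : Prop := ∃ a : ℝ, 0 < a ∧ a < 1 ∧ ∀ D1 D2 D3 : ℝ, D1 ≠ 0 → D2 ≠ 0 → D3 ≠ 0 →
  ∀ ε > 0, ∃ i j k l : ℕ, ∃ c : ℝ, c ≠ 0 ∧
    |c * (∫ x in (-1 : ℝ)..(-a), sw a i j k l x) - D1| < ε ∧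
    |c * (∫ x in (-a)..a, sw a i j k l x) - D2| < ε ∧
    |c * (∫ x in a..(1 : ℝ), sw a i j k l x) - D3| < ε

/-- from TaskApprox and TaskPoly: every function on the four points is approximated. -/
def TaskMain : Prop := ∃ a : ℝ, 0 < a ∧ a < 1 ∧ ∀ f : ℝ → ℝ, ∀ ε > 0, ∃ p : Polynomial ℝ,
  CritIn {-1, -a, a, 1} p ∧ ∀ x ∈ ({-1, -a, a, 1} : Set ℝ), |p.eval x - f x| < ε

end

end Pool.Agent.Q178.CPX
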