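import Pool.Agent.Q178.CPX.Stmts

set_option autoImplicit false

namespace Pool.Agent.Q178.CPX.TaskApprox

open Pool.Agent.Q178.CPX

theorem main (h1 : TaskTriple) (h2 : TaskSign) (h3 : TaskPos) :
    Pool.Agent.Q178.CPX.TaskApprox := by
  obtain ⟨a, ha, ha1, H⟩ := h1
  refine ⟨a, ha, ha1, fun D1 D2 D3 hD1 hD2 hD3 ε hε => ?_⟩
  have key : ∀ D : ℝ, D ≠ 0 → ∃ e : ℕ, ∃ T : ℝ, ∃ δ > 0, ∀ (n : ℕ) (F : ℝ), n % 2 = e % 2 →
      |F - T| < δ → |D2 * (-1) ^ n * Real.exp F - D| < ε := by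
    intro D hD
    have hq : D / D2 ≠ 0 := div_ne_zero hD hD2
    obtain ⟨e, he⟩ : ∃ e : ℕ, (-1 : ℝ) ^ e * |D / D2| = D / D2 := by
      rcases le_total 0 (D / D2) with h | h
      · exact ⟨0, by rw [pow_zero, one_mul, abs_of_nonneg h]⟩
      · exact ⟨1, by rw [pow_one, abs_of_nonpos h]; ring⟩
    have hexp : Real.exp (Real.log |D / D2|) = |D / D2| := Real.exp_log (abs_pos.2 hq)
    have hcont : ContinuousAt Real.exp (Real.log |D / D2|) := Real.continuous_exp.continuousAt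
    obtain ⟨δ, hδ, hδ'⟩ := Metric.continuousAt_iff.1 hcont (ε / |D2|)
      (div_pos hε (abs_pos.2 hD2))
    refine ⟨e, Real.log |D / D2|, δ, hδ, fun n F hn hF => ?_⟩
    have h4 : (-1 : ℝ) ^ n = (-1) ^ e := by
      rw [neg_one_pow_eq_pow_mod_two, hn, ← neg_one_pow_eq_pow_mod_two]
    have h5 := hδ' (x := F) hF
    rw [Real.dist_eq, hexp] at h5
    have h6 : D2 * (-1) ^ n * Real.exp F - D = D2 * (-1) ^ e * (Real.exp F - |D / D2|) := by
      rw [h4, mul_sub, mul_assoc D2 _ |D / D2|, he, mul_div_cancel₀ _ hD2]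
    rw [h6, abs_mul, abs_mul, abs_pow, abs_neg, abs_one, one_pow, mul_one]
    rwa [lt_div_iff₀' (abs_pos.2 hD2)] at h5
  obtain ⟨e2, T1, δ1, hδ1, k1⟩ := key D1 hD1
  obtain ⟨e3, T3, δ3, hδ3, k3⟩ := key D3 hD3
  obtain ⟨i, j, k, l, hj, hk, hF1, hF3⟩ := H e2 e3 T1 T3 (min δ1 δ3) (lt_min hδ1 hδ3)
  obtain ⟨p1, p2, p3⟩ := h3 a ha ha1 i j k l
  obtain ⟨s1, s2, s3⟩ := h2 a ha ha1 i j k l
  have hs : ∀ n : ℕ, (-1 : ℝ) ^ n * (-1) ^ n = 1 := fun n => by
    rw [← mul_pow]; norm_num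
  have hk' := hs k
  have hl' := hs l
  have hJ2 : J2 a i j k l ≠ 0 := p2.ne'
  refine ⟨i, j, k, l, D2 * (-1) ^ (k + l) / J2 a i j k l, ?_, ?_, ?_, ?_⟩
  · exact div_ne_zero (mul_ne_zero hD2 (pow_ne_zero _ (by norm_num))) hJ2
  · have h7 : D2 * (-1) ^ (k + l) / J2 a i j k l * ((-1) ^ (j + k + l) * J1 a i j k l) =
        D2 * (-1) ^ j * Real.exp (F1 a i j k l) := by
      unfold F1
      rw [Real.exp_log (div_pos p1 p2), pow_add, pow_add, pow_add]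
      linear_combination (D2 * (-1) ^ j * J1 a i j k l / J2 a i j k l * ((-1) ^ l * (-1) ^ l)) *
        hk' + (D2 * (-1) ^ j * J1 a i j k l / J2 a i j k l) * hl'
    rw [s1, h7]
    exact k1 j _ hj (hF1.trans_le (min_le_left _ _))
  · have h7 : D2 * (-1) ^ (k + l) / J2 a i j k l * ((-1) ^ (k + l) * J2 a i j k l) = D2 := by
      have h8 := hs (k + l)
      field_simp
      rw [pow_two, h8]
    rw [s2, h7, sub_self, abs_zero]
    exact hε
  · have h7 : D2 * (-1) ^ (k + l) / J2 a i j k l * ((-1) ^ l * J3 a i j k l) =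
        D2 * (-1) ^ k * Real.exp (F3 a i j k l) := by
      unfold F3
      rw [Real.exp_log (div_pos p3 p2), pow_add]
      linear_combination (D2 * (-1) ^ k * J3 a i j k l / J2 a i j k l) * hl'
    rw [s3, h7]
    exact k3 k _ hk (hF3.trans_le (min_le_right _ _))

end Pool.Agent.Q178.CPX.TaskApprox
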