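import Mathlib
import Pool.Agent.Q178.CPX.Stmts

set_option autoImplicit false

open Filter Topology Set

namespace Pool.Agent.Q178.CPX.TaskC0

theorem wt_eq (a : ℝ) (k : ℕ) (x : ℝ) : wt a k 0 0 k x = |1 - x ^ 2| ^ k := by
  unfold wt
  rw [pow_zero, pow_zero, mul_one, mul_one, ← mul_pow, ← abs_mul, ← abs_neg]
  congr 2
  ring

theorem main : Pool.Agent.Q178.CPX.TaskC0 := by
  intro a h0 h1
  refine ⟨(1 - a) / (2 * a), fun k => ?_⟩
  have hc : 0 < (1 - a ^ 2) ^ k := by
    apply pow_pos
    nlinarith
  have cont : Continuous (wt a k 0 0 k) := by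
    unfold wt
    fun_prop
  have h3 : J3 a k 0 0 k ≤ (1 - a) * (1 - a ^ 2) ^ k := by
    have := intervalIntegral.integral_mono_on (μ := MeasureTheory.volume) (a := a) (b := 1) (f := wt a k 0 0 k)
      (g := fun _ => (1 - a ^ 2) ^ k) h1.le (cont.intervalIntegrable _ _)
      (continuous_const.intervalIntegrable _ _) (fun x hx => by
        rw [wt_eq]
        have hx1 := hx.1
        have hx2 := hx.2
        refine pow_le_pow_left₀ (abs_nonneg _) ?_ k
        rw [abs_of_nonneg (by nlinarith)]
        nlinarith)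
    rw [intervalIntegral.integral_const, smul_eq_mul] at this
    exact this
  have h2 : 2 * a * (1 - a ^ 2) ^ k ≤ J2 a k 0 0 k := by
    have := intervalIntegral.integral_mono_on (μ := MeasureTheory.volume) (a := -a) (b := a)
      (f := fun _ => (1 - a ^ 2) ^ k) (g := wt a k 0 0 k) (by linarith)
      (continuous_const.intervalIntegrable _ _) (cont.intervalIntegrable _ _) (fun x hx => by
        rw [wt_eq]
        have hx1 := hx.1
        have hx2 := hx.2
        refine pow_le_pow_left₀ (by nlinarith) ?_ k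
        rw [abs_of_nonneg (by nlinarith)]
        nlinarith)
    rw [intervalIntegral.integral_const, smul_eq_mul] at this
    unfold J2
    linarith
  unfold r
  have hJ2 : 0 < J2 a k 0 0 k := lt_of_lt_of_le (by positivity) h2
  rw [div_le_div_iff₀ hJ2 (by positivity)]
  have e1 : J3 a k 0 0 k * (2 * a) ≤ (1 - a) * (1 - a ^ 2) ^ k * (2 * a) :=
    mul_le_mul_of_nonneg_right h3 (by positivity)
  have e2 : (1 - a) * (2 * a * (1 - a ^ 2) ^ k) ≤ (1 - a) * J2 a k 0 0 k :=
    mul_le_mul_of_nonneg_left h2 (by linarith)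
  linarith

end Pool.Agent.Q178.CPX.TaskC0
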