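import Pool.Agent.Q178.CPX.Stmts

/-! For fixed `k` the ratio tends to infinity with `l`. -/

namespace Pool.Agent.Q178.CPX.TaskC1
open Set Filter Topology

theorem wt_cont (a : ℝ) (i j k l : ℕ) : Continuous (wt a i j k l) := by
  unfold wt
  fun_prop

theorem wt_nonneg (a : ℝ) (i j k l : ℕ) (x : ℝ) : 0 ≤ wt a i j k l x := by
  unfold wt
  positivity

theorem wt_sym (a : ℝ) (k l : ℕ) (x : ℝ) :
    wt a k l l k x = |1 - x ^ 2| ^ k * |x ^ 2 - a ^ 2| ^ l := by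
  unfold wt
  have h1 : |1 - x ^ 2| = |x + 1| * |x - 1| := by
    rw [← abs_mul, ← abs_neg]; congr 1; ring
  have h2 : |x ^ 2 - a ^ 2| = |x + a| * |x - a| := by
    rw [← abs_mul]; congr 1; ring
  rw [h1, h2, mul_pow, mul_pow]
  ring

theorem main : Pool.Agent.Q178.CPX.TaskC1 := by
  intro a ha ha2 k
  obtain ⟨b, hb0, hb2⟩ : ∃ b : ℝ, 0 < b ∧ b ^ 2 = (2 * a ^ 2 + 1) / 2 :=
    ⟨Real.sqrt ((2 * a ^ 2 + 1) / 2), Real.sqrt_pos.2 (by positivity),
      Real.sq_sqrt (by positivity)⟩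
  have hb1 : b < 1 := by nlinarith
  have hab : a < b := by nlinarith
  obtain ⟨c, hc⟩ : ∃ c : ℝ, c = (1 + b) / 2 := ⟨_, rfl⟩
  have hbc : b < c := by rw [hc]; linarith
  have hc1 : c < 1 := by rw [hc]; linarith
  have hc0 : 0 < c := hb0.trans hbc
  have hc2 : 0 < 1 - c ^ 2 := by nlinarith
  have hba : 0 < b ^ 2 - a ^ 2 := by nlinarith
  have hq : 1 < (b ^ 2 - a ^ 2) / a ^ 2 := by
    rw [lt_div_iff₀ (by positivity)]; linarith
  -- the upper bound of `J2`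
  have hJ2 : ∀ l : ℕ, J2 a k l l k ≤ 2 * a * (a ^ 2) ^ l := by
    intro l
    have h1 : ∫ x in (-a)..a, wt a k l l k x ≤ ∫ _x in (-a)..a, (a ^ 2) ^ l := by
      refine intervalIntegral.integral_mono_on (by linarith)
        ((wt_cont a k l l k).intervalIntegrable _ _) (by simp) fun x hx => ?_
      have hx2 : x ^ 2 ≤ a ^ 2 := by nlinarith [hx.1, hx.2]
      rw [wt_sym]
      have e1 : |1 - x ^ 2| ≤ 1 := by
        rw [abs_le]; constructor <;> nlinarith [sq_nonneg x]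
      have e2 : |x ^ 2 - a ^ 2| ≤ a ^ 2 := by
        rw [abs_le]; constructor <;> nlinarith [sq_nonneg x]
      calc |1 - x ^ 2| ^ k * |x ^ 2 - a ^ 2| ^ l ≤ 1 ^ k * (a ^ 2) ^ l := by gcongr
        _ = (a ^ 2) ^ l := by ring
    have h2 : ∫ _x in (-a)..a, (a ^ 2) ^ l = 2 * a * (a ^ 2) ^ l := by
      rw [intervalIntegral.integral_const, smul_eq_mul]; ring
    unfold J2
    linarith
  -- the lower bound of `J3`
  have hJ3 : ∀ l : ℕ, (c - b) * (1 - c ^ 2) ^ k * (b ^ 2 - a ^ 2) ^ l ≤ J3 a k l l k := by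
    intro l
    have h1 : ∫ _x in b..c, (1 - c ^ 2) ^ k * (b ^ 2 - a ^ 2) ^ l ≤ ∫ x in b..c, wt a k l l k x := by
      refine intervalIntegral.integral_mono_on hbc.le (by simp)
        ((wt_cont a k l l k).intervalIntegrable _ _) fun x hx => ?_
      have hx1 : b ^ 2 ≤ x ^ 2 := by nlinarith [hx.1, hx.2]
      have hx2 : x ^ 2 ≤ c ^ 2 := by nlinarith [hx.1, hx.2]
      rw [wt_sym]
      have e1 : 1 - c ^ 2 ≤ |1 - x ^ 2| := (by linarith : 1 - c ^ 2 ≤ 1 - x ^ 2).trans (le_abs_self _)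
      have e2 : b ^ 2 - a ^ 2 ≤ |x ^ 2 - a ^ 2| :=
        (by linarith : b ^ 2 - a ^ 2 ≤ x ^ 2 - a ^ 2).trans (le_abs_self _)
      gcongr
    have h2 : ∫ _x in b..c, (1 - c ^ 2) ^ k * (b ^ 2 - a ^ 2) ^ l =
        (c - b) * (1 - c ^ 2) ^ k * (b ^ 2 - a ^ 2) ^ l := by
      rw [intervalIntegral.integral_const, smul_eq_mul]; ring
    have h3 : ∫ x in b..c, wt a k l l k x ≤ ∫ x in a..(1 : ℝ), wt a k l l k x :=
      intervalIntegral.integral_mono_interval hab.le hbc.le hc1.le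
        (Eventually.of_forall fun x => wt_nonneg a k l l k x)
        ((wt_cont a k l l k).intervalIntegrable _ _)
    unfold J3
    linarith
  have hJ2pos : ∀ l : ℕ, 0 < J2 a k l l k := by
    intro l
    refine intervalIntegral.intervalIntegral_pos_of_pos_on
      ((wt_cont a k l l k).intervalIntegrable _ _) (fun x hx => ?_) (by linarith)
    have hx2 : x ^ 2 < a ^ 2 := by nlinarith [hx.1, hx.2]
    rw [wt_sym]
    have e1 : 0 < |1 - x ^ 2| := abs_pos.2 (by nlinarith)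
    have e2 : 0 < |x ^ 2 - a ^ 2| := abs_pos.2 (by nlinarith)
    positivity
  have hC : 0 < (c - b) * (1 - c ^ 2) ^ k / (2 * a) := by
    have : 0 < c - b := by linarith
    positivity
  refine tendsto_atTop_mono (fun l => ?_) ((tendsto_pow_atTop_atTop_of_one_lt hq).const_mul_atTop hC)
  unfold r
  rw [le_div_iff₀ (hJ2pos l)]
  refine le_trans ?_ (hJ3 l)
  calc (c - b) * (1 - c ^ 2) ^ k / (2 * a) * ((b ^ 2 - a ^ 2) / a ^ 2) ^ l * J2 a k l l k
      ≤ (c - b) * (1 - c ^ 2) ^ k / (2 * a) * ((b ^ 2 - a ^ 2) / a ^ 2) ^ l *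
        (2 * a * (a ^ 2) ^ l) := by
        have h5 : 0 ≤ ((b ^ 2 - a ^ 2) / a ^ 2) ^ l := by positivity
        exact mul_le_mul_of_nonneg_left (hJ2 l) (mul_nonneg hC.le h5)
    _ = (c - b) * (1 - c ^ 2) ^ k * (b ^ 2 - a ^ 2) ^ l := by
        rw [div_pow]
        field_simp

end Pool.Agent.Q178.CPX.TaskC1
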