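import Pool.Agent.Q178.CPX.Stmts
set_option autoImplicit false

namespace Pool.Agent.Q178.CPX.TaskC2
open Filter Topology Set

theorem wt_eq (a : ℝ) (k l : ℕ) (x : ℝ) : wt a k l l k x = |x ^ 2 - 1| ^ k * |x ^ 2 - a ^ 2| ^ l := by
  unfold wt
  rw [show x ^ 2 - 1 = (x + 1) * (x - 1) by ring, show x ^ 2 - a ^ 2 = (x + a) * (x - a) by ring,
    abs_mul, abs_mul, mul_pow, mul_pow]
  ring

theorem wt_cont (a : ℝ) (i j k l : ℕ) : Continuous (wt a i j k l) := by
  unfold wt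
  fun_prop

theorem wt_nonneg (a : ℝ) (i j k l : ℕ) (x : ℝ) : 0 ≤ wt a i j k l x := by
  unfold wt; positivity

theorem J2_pos (a : ℝ) (ha : 0 < a) (ha1 : a < 1) (k l : ℕ) : 0 < J2 a k l l k := by
  unfold J2
  refine intervalIntegral.intervalIntegral_pos_of_pos_on ((wt_cont a k l l k).intervalIntegrable _ _) ?_
    (by linarith)
  intro x hx
  rw [wt_eq]
  have h1 : x ^ 2 - a ^ 2 ≠ 0 := by
    have h3 : x ^ 2 < a ^ 2 := sq_lt_sq' hx.1 hx.2
    exact (sub_neg.2 h3).ne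
  have h2 : x ^ 2 - 1 ≠ 0 := by
    have : x ^ 2 < 1 := by nlinarith [hx.1, hx.2]
    exact (sub_neg.2 this).ne
  positivity

theorem main : Pool.Agent.Q178.CPX.TaskC2 := by
  intro a ha ha1
  refine ⟨8 / (3 * a ^ 2), by positivity, ?_⟩
  intro k l
  have hJ3 : J3 a k (l + 1) (l + 1) k ≤ J3 a k l l k := by
    unfold J3
    refine intervalIntegral.integral_mono_on ha1.le ((wt_cont a _ _ _ _).intervalIntegrable _ _)
      ((wt_cont a _ _ _ _).intervalIntegrable _ _) ?_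
    intro x hx
    rw [wt_eq, wt_eq, pow_succ (|x ^ 2 - a ^ 2|) l, ← mul_assoc]
    have h1 : |x ^ 2 - a ^ 2| ≤ 1 := by
      rw [abs_le]
      constructor <;> nlinarith [hx.1, hx.2]
    exact mul_le_of_le_one_right (by positivity) h1
  have hJ3n : 0 ≤ J3 a k l l k := by
    unfold J3
    exact intervalIntegral.integral_nonneg ha1.le fun x _ => wt_nonneg _ _ _ _ _ x
  have hsub : J2 a k l l k = 2 * ∫ y in (-(a / 2))..(a / 2), wt a k l l k (2 * y) := by
    rw [intervalIntegral.integral_comp_mul_left (fun x => wt a k l l k x) (two_ne_zero)]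
    unfold J2
    rw [show 2 * (-(a / 2)) = -a by ring, show 2 * (a / 2) = a by ring, smul_eq_mul]
    ring
  have hle1 : ∫ y in (-(a / 2))..(a / 2), wt a k l l k (2 * y) ≤
      ∫ y in (-(a / 2))..(a / 2), (4 / (3 * a ^ 2)) * wt a k (l + 1) (l + 1) k y := by
    refine intervalIntegral.integral_mono_on (by linarith) ?_ ?_ ?_
    · exact ((wt_cont a k l l k).comp (by fun_prop : Continuous fun y : ℝ => 2 * y)).intervalIntegrable _ _
    · exact ((wt_cont a k (l + 1) (l + 1) k).const_mul _).intervalIntegrable _ _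
    intro y hy
    have hy2 : y ^ 2 ≤ (a / 2) ^ 2 := sq_le_sq' hy.1 hy.2
    have e1 : |(2 * y) ^ 2 - 1| ≤ |y ^ 2 - 1| := by
      rw [abs_of_nonpos (by nlinarith), abs_of_nonpos (by nlinarith)]
      nlinarith
    have e2 : |(2 * y) ^ 2 - a ^ 2| ≤ |y ^ 2 - a ^ 2| := by
      rw [abs_of_nonpos (by nlinarith), abs_of_nonpos (by nlinarith)]
      nlinarith
    have e3 : 1 ≤ (4 / (3 * a ^ 2)) * |y ^ 2 - a ^ 2| := by
      rw [abs_of_nonpos (by nlinarith), div_mul_eq_mul_div, le_div_iff₀ (by positivity)]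
      nlinarith
    rw [wt_eq, wt_eq, pow_succ (|y ^ 2 - a ^ 2|) l]
    calc |(2 * y) ^ 2 - 1| ^ k * |(2 * y) ^ 2 - a ^ 2| ^ l
        ≤ |y ^ 2 - 1| ^ k * |y ^ 2 - a ^ 2| ^ l := by gcongr
      _ ≤ (|y ^ 2 - 1| ^ k * |y ^ 2 - a ^ 2| ^ l) * ((4 / (3 * a ^ 2)) * |y ^ 2 - a ^ 2|) :=
          le_mul_of_one_le_right (by positivity) e3
      _ = _ := by ring
  have hle2 : ∫ y in (-(a / 2))..(a / 2), wt a k (l + 1) (l + 1) k y ≤ J2 a k (l + 1) (l + 1) k := by
    unfold J2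
    refine intervalIntegral.integral_mono_interval (by linarith) (by linarith) (by linarith) ?_ ?_
    · exact Filter.Eventually.of_forall fun x => wt_nonneg _ _ _ _ _ x
    · exact (wt_cont a _ _ _ _).intervalIntegrable _ _
  rw [intervalIntegral.integral_const_mul] at hle1
  have hp := J2_pos a ha ha1 k l
  have hp' := J2_pos a ha ha1 k (l + 1)
  have hJ2 : J2 a k l l k ≤ 8 / (3 * a ^ 2) * J2 a k (l + 1) (l + 1) k := by
    rw [hsub]
    have hc : 0 ≤ 4 / (3 * a ^ 2) := by positivity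
    calc 2 * ∫ y in (-(a / 2))..(a / 2), wt a k l l k (2 * y)
        ≤ 2 * (4 / (3 * a ^ 2) * J2 a k (l + 1) (l + 1) k) := by
          have := mul_le_mul_of_nonneg_left hle2 hc
          linarith
      _ = _ := by ring
  unfold r
  rw [← mul_div_assoc, div_le_div_iff₀ hp' hp]
  calc J3 a k (l + 1) (l + 1) k * J2 a k l l k ≤ J3 a k l l k * J2 a k l l k :=
        mul_le_mul_of_nonneg_right hJ3 hp.le
    _ ≤ J3 a k l l k * (8 / (3 * a ^ 2) * J2 a k (l + 1) (l + 1) k) :=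
        mul_le_mul_of_nonneg_left hJ2 hJ3n
    _ = _ := by ring

end Pool.Agent.Q178.CPX.TaskC2
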