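import Pool.Agent.Q178.CPX.Stmts

set_option autoImplicit false

namespace Pool.Agent.Q178.CPX
open Filter Topology Set

theorem taskChoice (h0 : TaskC0) (h1 : TaskC1) (h2 : TaskC2) : TaskChoice := by
  intro a ha ha2
  have ha1 : a < 1 := by nlinarith
  obtain ⟨K0, hK0⟩ := h0 a ha ha1
  obtain ⟨K2, hK2, hr⟩ := h2 a ha ha1
  refine ⟨max K0 K2, fun k => ?_⟩
  have hex : ∃ l, 1 ≤ r a k l := by
    obtain ⟨l, hl⟩ := ((h1 a ha ha2 k).eventually_ge_atTop 1).exists
    exact ⟨l, hl⟩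
  classical
  refine ⟨Nat.find hex, Nat.find_spec hex, ?_⟩
  rcases Nat.eq_zero_or_pos (Nat.find hex) with h | h
  · rw [h]
    exact (hK0 k).trans (le_max_left _ _)
  · obtain ⟨m, hm⟩ := Nat.exists_eq_succ_of_ne_zero h.ne'
    have hlt : ¬ 1 ≤ r a k m := Nat.find_min hex (by omega)
    rw [hm]
    refine (hr k m).trans (le_trans ?_ (le_max_right _ _))
    push Not at hlt
    nlinarith

end Pool.Agent.Q178.CPX
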