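import Pool.Agent.Q178.CPX.ConcA

namespace Pool.Agent.Q178.CPX.TaskConcA

theorem main : Pool.Agent.Q178.CPX.TaskConcA := Pool.Agent.Q178.CPX.ConcA.main

end Pool.Agent.Q178.CPX.TaskConcA
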