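import Pool.Agent.Q178.CPX.Stmts

/-! Concentration of the mass gives the limit of the averages (helper135). -/

namespace Pool.Agent.Q178.CPX.TaskConcB
open Filter Topology Set MeasureTheory

private lemma sub_interval {u v t δ' : ℝ} (huv : u < v) (ht : t ∈ Icc u v) (hδ' : 0 < δ') :
    ∃ p m : ℝ, 0 < m ∧ u ≤ p ∧ p + m ≤ v ∧ ∀ x ∈ Icc p (p + m), |x - t| ≤ δ' := by
  obtain ⟨h1, h2⟩ := ht
  have hm : 0 < min δ' ((v - u) / 2) := lt_min hδ' (by linarith)
  have hm1 := min_le_left δ' ((v - u) / 2)
  have hm2 := min_le_right δ' ((v - u) / 2)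
  set m := min δ' ((v - u) / 2) with hmdef
  by_cases h : t ≤ (u + v) / 2
  · refine ⟨t, m, hm, h1, by linarith, fun x hx => ?_⟩
    rw [abs_le]
    constructor <;> linarith [hx.1, hx.2]
  · push Not at h
    refine ⟨t - m, m, hm, by linarith, by linarith, fun x hx => ?_⟩
    rw [abs_le]
    constructor <;> linarith [hx.1, hx.2]

theorem main : Pool.Agent.Q178.CPX.TaskConcB := by
  intro u v t w h k huv ht hw hh hh0 hk H
  rw [Metric.tendsto_nhds]
  intro ε hε
  obtain ⟨δ, hδ, hδ2⟩ := (Metric.continuousOn_iff.1 hw) t ht (ε / 2) (half_pos hε)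
  obtain ⟨q1, q2, δ', hq1, hq12, hδ', hev⟩ := H δ hδ
  obtain ⟨C, hC⟩ := isCompact_Icc.exists_bound_of_continuousOn
    (hw.sub (continuousOn_const (c := w t)))
  have hC0 : 0 ≤ C := (norm_nonneg _).trans (hC t ht)
  obtain ⟨p, m, hm, hp1, hp2, hp3⟩ := sub_interval huv ht hδ'
  have hq2 : 0 < q2 := hq1.trans_lt hq12
  have hpow : Tendsto (fun n => (q1 / q2) ^ k n) atTop (𝓝 0) :=
    (tendsto_pow_atTop_nhds_zero_of_lt_one (div_nonneg hq1 hq2.le)
      ((div_lt_one hq2).2 hq12)).comp hk
  have hpow2 : Tendsto (fun n => C * (v - u) / m * (q1 / q2) ^ k n) atTop (𝓝 0) := by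
    simpa using hpow.const_mul (C * (v - u) / m)
  have hsmall := (tendsto_order.1 hpow2).2 (ε / 2) (half_pos hε)
  filter_upwards [hev, hsmall] with n hn hs
  obtain ⟨hout, hin⟩ := hn
  have hint : IntervalIntegrable (h n) volume u v :=
    ContinuousOn.intervalIntegrable (by rw [uIcc_of_le huv.le]; exact hh n)
  have hwint : IntervalIntegrable (fun x => w x * h n x) volume u v :=
    ContinuousOn.intervalIntegrable (by rw [uIcc_of_le huv.le]; exact hw.mul (hh n))
  -- the mass
  have hmass : m * q2 ^ k n ≤ ∫ x in u..v, h n x := by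
    have hsub : Icc p (p + m) ⊆ Icc u v := Icc_subset_Icc hp1 hp2
    have e1 : m * q2 ^ k n = ∫ _x in p..(p + m), q2 ^ k n := by
      rw [intervalIntegral.integral_const]; simp
    have e2 : (∫ _x in p..(p + m), q2 ^ k n) ≤ ∫ x in p..(p + m), h n x := by
      refine intervalIntegral.integral_mono_on (by linarith) (by simp) ?_ ?_
      · exact ContinuousOn.intervalIntegrable
          (by rw [uIcc_of_le (by linarith)]; exact (hh n).mono hsub)
      · intro x hx
        exact hin x (hsub hx) (hp3 x hx)
    have e3 : (∫ x in p..(p + m), h n x) ≤ ∫ x in u..v, h n x := by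
      refine intervalIntegral.integral_mono_interval hp1 (by linarith) hp2 ?_ hint
      rw [EventuallyLE, ae_restrict_iff' measurableSet_Ioc]
      exact Eventually.of_forall fun x hx => hh0 n x ⟨hx.1.le, hx.2⟩
    rw [e1]
    exact e2.trans e3
  set I := ∫ x in u..v, h n x with hI
  have hmq : 0 < m * q2 ^ k n := mul_pos hm (pow_pos hq2 _)
  have hIpos : 0 < I := hmq.trans_le hmass
  have hdiff : |(∫ x in u..v, w x * h n x) - w t * I| ≤ ε / 2 * I + C * q1 ^ k n * (v - u) := by
    have e1 : (∫ x in u..v, w x * h n x) - w t * I = ∫ x in u..v, (w x - w t) * h n x := by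
      rw [hI, ← intervalIntegral.integral_const_mul, ← intervalIntegral.integral_sub hwint
        (hint.const_mul _)]
      congr 1
      funext x
      ring
    have e2 : ε / 2 * I + C * q1 ^ k n * (v - u) =
        ∫ x in u..v, (ε / 2 * h n x + C * q1 ^ k n) := by
      rw [intervalIntegral.integral_add (hint.const_mul _) (by simp),
        intervalIntegral.integral_const_mul, intervalIntegral.integral_const, smul_eq_mul]
      ring
    rw [e1, e2]
    refine (intervalIntegral.abs_integral_le_integral_abs huv.le).trans ?_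
    refine intervalIntegral.integral_mono_on huv.le ?_ ?_ ?_
    · refine IntervalIntegrable.abs ?_
      exact ContinuousOn.intervalIntegrable
        (by rw [uIcc_of_le huv.le]; exact (hw.sub continuousOn_const).mul (hh n))
    · exact (hint.const_mul _).add (by simp)
    · intro x hx
      rw [abs_mul, abs_of_nonneg (hh0 n x hx)]
      by_cases hx2 : |x - t| < δ
      · have h1 : |w x - w t| < ε / 2 := by
          have := hδ2 x hx (by rw [Real.dist_eq]; exact hx2)
          rwa [Real.dist_eq] at this
        have h2 : |w x - w t| * h n x ≤ ε / 2 * h n x :=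
          mul_le_mul_of_nonneg_right h1.le (hh0 n x hx)
        have h3 : 0 ≤ C * q1 ^ k n := mul_nonneg hC0 (pow_nonneg hq1 _)
        linarith
      · push Not at hx2
        have h1 := hout x hx hx2
        have h2 : |w x - w t| ≤ C := by
          have := hC x hx
          rwa [Real.norm_eq_abs] at this
        have h3 : |w x - w t| * h n x ≤ C * q1 ^ k n :=
          mul_le_mul h2 h1 (hh0 n x hx) hC0
        have h4 : 0 ≤ ε / 2 * h n x := mul_nonneg (by linarith) (hh0 n x hx)
        linarith
  rw [Real.dist_eq]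
  have e : (∫ x in u..v, w x * h n x) / I - w t = ((∫ x in u..v, w x * h n x) - w t * I) / I := by
    field_simp
  rw [e, abs_div, abs_of_pos hIpos, div_lt_iff₀ hIpos]
  refine hdiff.trans_lt ?_
  have h5 : C * q1 ^ k n * (v - u) = C * (v - u) / m * (q1 / q2) ^ k n * (m * q2 ^ k n) := by
    rw [div_pow]
    field_simp
  have h6 : C * (v - u) / m * (q1 / q2) ^ k n * (m * q2 ^ k n) ≤
      C * (v - u) / m * (q1 / q2) ^ k n * I :=
    mul_le_mul_of_nonneg_left hmass (mul_nonneg (div_nonneg (mul_nonneg hC0 (by linarith)) hm.le)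
      (pow_nonneg (div_nonneg hq1 hq2.le) _))
  have h7 : C * (v - u) / m * (q1 / q2) ^ k n * I < ε / 2 * I :=
    mul_lt_mul_of_pos_right hs hIpos
  rw [h5]
  calc _ ≤ ε / 2 * I + C * (v - u) / m * (q1 / q2) ^ k n * I := by linarith
    _ < ε / 2 * I + ε / 2 * I := by linarith
    _ = ε * I := by ring

end Pool.Agent.Q178.CPX.TaskConcB
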