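import Pool.Agent.Q178.CPX.Stmts

set_option autoImplicit false

namespace Pool.Agent.Q178.CPX.TaskDense

theorem main : Pool.Agent.Q178.CPX.TaskDense := by
  intro x y hxy T ε hε
  have h1 : Dense (AddSubgroup.closure {x, y} : Set ℝ) := dense_addSubgroupClosure_pair_iff.2 hxy
  obtain ⟨z, hz, hzd⟩ := h1.exists_dist_lt T hε
  obtain ⟨p, q, hpq⟩ := AddSubgroup.mem_closure_pair.1 hz
  refine ⟨p, q, ?_⟩
  rw [Real.dist_eq] at hzd
  rw [← hpq, abs_sub_comm] at hzd
  simpa [zsmul_eq_mul, mul_comm] using hzd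

end Pool.Agent.Q178.CPX.TaskDense
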