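import Mathlib
import Pool.Agent.Q178.CPX.Stmts

set_option autoImplicit false

open Filter Topology Set

namespace Pool.Agent.Q178.CPX.TaskDense184

theorem main : Pool.Agent.Q178.CPX.TaskDense := by
  intro x y h T ε hε
  have hd : Dense (AddSubgroup.closure {x, y} : Set ℝ) := dense_addSubgroupClosure_pair_iff.2 h
  obtain ⟨z, hz, hz2⟩ := Metric.dense_iff.1 hd T ε hε
  obtain ⟨m, n, hmn⟩ := AddSubgroup.mem_closure_pair.1 hz2
  refine ⟨m, n, ?_⟩
  rw [Metric.mem_ball, Real.dist_eq] at hz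
  rw [zsmul_eq_mul, zsmul_eq_mul] at hmn
  rw [show x * m + y * n = z by rw [← hmn]; ring]
  exact hz

end Pool.Agent.Q178.CPX.TaskDense184
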