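import Pool.Agent.Q178.CPX.Stmts

namespace Pool.Agent.Q178.CPX.TaskIVT
open Filter Topology Set

lemma cont_tanh : Continuous Real.tanh := by
  have h : Real.tanh = fun x => Real.sinh x / Real.cosh x := by
    funext x; exact Real.tanh_eq_sinh_div_cosh x
  rw [h]
  exact Real.continuous_sinh.div Real.continuous_cosh fun x => (Real.cosh_pos x).ne'

lemma tanh_pos' {x : ℝ} (hx : 0 < x) : 0 < Real.tanh x := by
  rw [Real.tanh_eq_sinh_div_cosh]
  exact div_pos (Real.sinh_pos_iff.2 hx) (Real.cosh_pos x)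

lemma tanh_val {m : ℝ} (hm : 0 < m) : Real.tanh (Real.log m / 2) = (m - 1) / (m + 1) := by
  rw [Real.tanh_eq]
  have h1 : Real.exp (-(Real.log m / 2)) = (Real.exp (Real.log m / 2))⁻¹ := Real.exp_neg _
  have h2 : Real.exp (Real.log m / 2) * Real.exp (Real.log m / 2) = m := by
    rw [← Real.exp_add, add_halves, Real.exp_log hm]
  have h3 := Real.exp_pos (Real.log m / 2)
  rw [h1]
  set E := Real.exp (Real.log m / 2) with hE
  rw [← h2]
  field_simp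

/-- the function whose zero is needed -/
noncomputable def H (s q : ℝ) : ℝ :=
  Real.log (1 - s ^ 2) + s ^ 2 * (1 - q ^ 2) / (1 - s ^ 2) * Real.log ((1 - q ^ 2) / q ^ 2)

lemma H_pos {s q : ℝ} (hs : 0 < s) (hs1 : s < 1) (hq : 0 < q) (hq2 : q ^ 2 ≤ 1 / 10) : 0 < H s q := by
  have hs2 : 0 < 1 - s ^ 2 := by nlinarith
  have h1 : 1 - (1 - s ^ 2)⁻¹ ≤ Real.log (1 - s ^ 2) := Real.one_sub_inv_le_log_of_pos hs2
  have hq0 : 0 < q ^ 2 := by positivity
  have h2 : (9 : ℝ) ≤ (1 - q ^ 2) / q ^ 2 := by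
    rw [le_div_iff₀ hq0]; linarith
  have h3 : Real.log 9 ≤ Real.log ((1 - q ^ 2) / q ^ 2) := Real.log_le_log (by norm_num) h2
  have h4 : (2 : ℝ) < Real.log 9 := by
    rw [Real.lt_log_iff_exp_lt (by norm_num)]
    have h5 : Real.exp 2 = Real.exp 1 * Real.exp 1 := by rw [← Real.exp_add]; norm_num
    rw [h5]
    have h6 := Real.exp_one_lt_d9
    have h7 := Real.exp_pos 1
    nlinarith
  have h8 : (1 : ℝ) < (1 - q ^ 2) * Real.log ((1 - q ^ 2) / q ^ 2) := by nlinarith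
  have h9 : 0 < s ^ 2 / (1 - s ^ 2) := by positivity
  have h10 : 1 - (1 - s ^ 2)⁻¹ = - (s ^ 2 / (1 - s ^ 2)) := by
    field_simp
    ring
  have h11 : H s q = Real.log (1 - s ^ 2) +
      s ^ 2 / (1 - s ^ 2) * ((1 - q ^ 2) * Real.log ((1 - q ^ 2) / q ^ 2)) := by
    unfold H
    ring
  rw [h11]
  have h12 : s ^ 2 / (1 - s ^ 2) < s ^ 2 / (1 - s ^ 2) * ((1 - q ^ 2) * Real.log ((1 - q ^ 2) / q ^ 2)) := by
    nlinarith
  linarith

lemma H_neg {s q : ℝ} (hs : 0 < s) (hs1 : s < 1) (hq : 0 < q) (hq1 : q < 1) (hq2 : 1 / 2 ≤ q ^ 2) :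
    H s q < 0 := by
  have hs2 : 0 < 1 - s ^ 2 := by nlinarith
  have hq0 : 0 < q ^ 2 := by positivity
  have hq3 : 0 < 1 - q ^ 2 := by nlinarith
  have h1 : Real.log (1 - s ^ 2) < 0 := Real.log_neg hs2 (by nlinarith)
  have h2 : Real.log ((1 - q ^ 2) / q ^ 2) ≤ 0 := by
    apply Real.log_nonpos (by positivity)
    rw [div_le_one hq0]; linarith
  have h3 : 0 < s ^ 2 * (1 - q ^ 2) / (1 - s ^ 2) := by positivity
  unfold H
  nlinarith

theorem main : Pool.Agent.Q178.CPX.TaskIVT := by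
  intro c hc
  set θ1 := Real.log (3 / 2) / 2 / c with hθ1
  set θ2 := Real.log 9 / 2 / c with hθ2
  have hl1 : 0 < Real.log (3 / 2) := Real.log_pos (by norm_num)
  have hl2 : Real.log (3 / 2) < Real.log 9 := Real.log_lt_log (by norm_num) (by norm_num)
  have h1 : 0 < θ1 := by positivity
  have h12 : θ1 ≤ θ2 := by
    rw [hθ1, hθ2]
    gcongr
  have hc1 : c * θ1 = Real.log (3 / 2) / 2 := by rw [hθ1]; field_simp
  have hc2 : c * θ2 = Real.log 9 / 2 := by rw [hθ2]; field_simp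
  let G : ℝ → ℝ := fun θ => H (Real.tanh θ) (Real.tanh (c * θ))
  have hpos : ∀ θ ∈ Icc θ1 θ2, 0 < θ := fun θ h => h1.trans_le h.1
  have hcont : ContinuousOn G (Icc θ1 θ2) := by
    have ht : ContinuousOn (fun θ : ℝ => Real.tanh θ) (Icc θ1 θ2) := cont_tanh.continuousOn
    have hq : ContinuousOn (fun θ : ℝ => Real.tanh (c * θ)) (Icc θ1 θ2) :=
      (cont_tanh.comp (continuous_const.mul continuous_id)).continuousOn
    have hs0 : ∀ θ ∈ Icc θ1 θ2, 1 - Real.tanh θ ^ 2 ≠ 0 := fun θ _ =>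
      (sub_pos.2 (Real.tanh_sq_lt_one θ)).ne'
    have hq0 : ∀ θ ∈ Icc θ1 θ2, Real.tanh (c * θ) ^ 2 ≠ 0 := fun θ hθ =>
      (pow_pos (tanh_pos' (mul_pos hc (hpos θ hθ))) 2).ne'
    have hq1 : ∀ θ ∈ Icc θ1 θ2, 1 - Real.tanh (c * θ) ^ 2 ≠ 0 := fun θ _ =>
      (sub_pos.2 (Real.tanh_sq_lt_one _)).ne'
    have hs2 : ContinuousOn (fun θ : ℝ => 1 - Real.tanh θ ^ 2) (Icc θ1 θ2) :=
      continuousOn_const.sub (ht.pow 2)
    have hq2 : ContinuousOn (fun θ : ℝ => 1 - Real.tanh (c * θ) ^ 2) (Icc θ1 θ2) :=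
      continuousOn_const.sub (hq.pow 2)
    refine (hs2.log hs0).add ?_
    refine (((ht.pow 2).mul hq2).div hs2 hs0).mul ?_
    refine (hq2.div (hq.pow 2) hq0).log ?_
    intro θ hθ
    exact div_ne_zero (hq1 θ hθ) (hq0 θ hθ)
  have hG1 : 0 ≤ G θ1 := by
    refine (H_pos (tanh_pos' h1) (Real.tanh_lt_one _) (tanh_pos' (mul_pos hc h1)) ?_).le
    rw [hc1, tanh_val (by norm_num)]
    norm_num
  have hG2 : G θ2 ≤ 0 := by
    have h2 : 0 < θ2 := h1.trans_le h12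
    refine (H_neg (tanh_pos' h2) (Real.tanh_lt_one _) (tanh_pos' (mul_pos hc h2)) (Real.tanh_lt_one _) ?_).le
    rw [hc2, tanh_val (by norm_num)]
    norm_num
  obtain ⟨θ, hθ, hGθ⟩ := intermediate_value_Icc' h12 hcont ⟨hG2, hG1⟩
  have hθ0 := hpos θ hθ
  have hs := tanh_pos' hθ0
  have hs1 := Real.tanh_lt_one θ
  have hq := tanh_pos' (mul_pos hc hθ0)
  have hq1 := Real.tanh_lt_one (c * θ)
  set s := Real.tanh θ with hsdef
  set q := Real.tanh (c * θ) with hqdef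
  have hs2 : 0 < 1 - s ^ 2 := by nlinarith
  have hq2 : 0 < 1 - q ^ 2 := by nlinarith
  refine ⟨θ, hθ0, s ^ 2 * (1 - q ^ 2) / (1 - s ^ 2), mul_pos hs hq, ?_, hs1, by positivity, ?_, ?_⟩
  · nlinarith
  · field_simp
    ring
  · have e1 : (s ^ 2 - (s * q) ^ 2) / (s * q) ^ 2 = (1 - q ^ 2) / q ^ 2 := by
      field_simp
    rw [e1]
    exact hGθ

end Pool.Agent.Q178.CPX.TaskIVT
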