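import Pool.Agent.Q178.CPX.Stmts

set_option autoImplicit false

open Filter Topology Set

namespace Pool.Agent.Q178.CPX.TaskInc

open Pool.Agent.Q178.CPX

theorem wt0 {a : ℝ} (ha : 0 < a) (m1 m2 m3 m4 : ℕ) : wt a m1 m2 m3 m4 0 = a ^ m2 * a ^ m3 := by
  have z1 : |(0 : ℝ) + 1| = 1 := by norm_num
  have z2 : |0 + a| = a := by rw [zero_add, abs_of_pos ha]
  have z3 : |0 - a| = a := by rw [zero_sub, abs_neg, abs_of_pos ha]
  have z4 : |(0 : ℝ) - 1| = 1 := by norm_num
  unfold wt
  rw [z1, z2, z3, z4]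
  simp

theorem wts {a s : ℝ} (ha : 0 < a) (has : a < s) (hs : s < 1) (m1 m2 m3 m4 : ℕ) :
    wt a m1 m2 m3 m4 s = (1 + s) ^ m1 * (s + a) ^ m2 * (s - a) ^ m3 * (1 - s) ^ m4 := by
  have e1 : |s + 1| = 1 + s := by rw [abs_of_pos (by linarith)]; ring
  have e2 : |s + a| = s + a := abs_of_pos (by linarith)
  have e3 : |s - a| = s - a := abs_of_pos (by linarith)
  have e4 : |s - 1| = 1 - s := by rw [abs_of_neg (by linarith)]; ring
  unfold wt
  rw [e1, e2, e3, e4]

theorem logwt {a s : ℝ} (ha : 0 < a) (has : a < s) (hs : s < 1) (m1 m2 m3 m4 : ℕ) :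
    Real.log (wt a m1 m2 m3 m4 s / (a ^ m2 * a ^ m3)) =
      LB s * m1 + LD a s * m2 + LC a s * m3 + LA s * m4 := by
  have hsa : 0 < s - a := by linarith
  have hsa' : 0 < s + a := by linarith
  have h1s : 0 < 1 + s := by linarith
  have h1s' : 0 < 1 - s := by linarith
  have h : wt a m1 m2 m3 m4 s / (a ^ m2 * a ^ m3) =
      (1 + s) ^ m1 * ((s + a) / a) ^ m2 * ((s - a) / a) ^ m3 * (1 - s) ^ m4 := by
    rw [wts ha has hs, div_pow, div_pow]
    field_simp
  rw [h, Real.log_mul (by positivity) (by positivity), Real.log_mul (by positivity) (by positivity),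
    Real.log_mul (by positivity) (by positivity), Real.log_pow, Real.log_pow, Real.log_pow,
    Real.log_pow]
  unfold LA LB LC LD
  ring

theorem main (h1 : TaskPos) (h2 : TaskSym) (h3 : TaskInc3) (h4 : TaskInc2) :
    Pool.Agent.Q178.CPX.TaskInc := by
  intro a ρ s hP k l hk hl m1 m2 m3 m4
  obtain ⟨ha, has, hs, hρ, hbal, -⟩ := hP
  have ha1 : a < 1 := by linarith
  have hpos := h1 a ha ha1
  have hT2 := h4 a ρ ha ha1 hρ k l hk hl m1 m2 m3 m4
  have hT3 := h3 a ρ s ha has hs hρ hbal k l hk hl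
  have hsa : 0 < s - a := by linarith
  have hsa' : 0 < s + a := by linarith
  have h1s : 0 < 1 + s := by linarith
  have h1s' : 0 < 1 - s := by linarith
  have hwpos : ∀ n1 n2 n3 n4 : ℕ, 0 < wt a n1 n2 n3 n4 s := by
    intro n1 n2 n3 n4
    rw [wts ha has hs]
    positivity
  rw [wt0 ha] at hT2
  have h0 : 0 < a ^ m2 * a ^ m3 := by positivity
  constructor
  · have key : Tendsto (fun n => (J1 a (k n + m1) (l n + m2) (l n + m3) (k n + m4) /
        J1 a (k n) (l n) (l n) (k n)) / (J2 a (k n + m1) (l n + m2) (l n + m3) (k n + m4) /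
        J2 a (k n) (l n) (l n) (k n))) atTop (𝓝 (wt a m4 m3 m2 m1 s / (a ^ m3 * a ^ m2))) := by
      rw [mul_comm (a ^ m3)]
      refine Tendsto.div ?_ hT2 h0.ne'
      refine (hT3 m4 m3 m2 m1).congr fun n => ?_
      rw [h2 a (k n + m1), h2 a (k n) (l n) (l n) (k n)]
    have key2 := (Real.continuousAt_log (div_pos (hwpos m4 m3 m2 m1)
      (mul_comm (a ^ m2) (a ^ m3) ▸ h0)).ne').tendsto.comp key
    rw [logwt ha has hs] at key2
    have e : LB s * (m4 : ℝ) + LD a s * m3 + LC a s * m2 + LA s * m1 =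
        LA s * m1 + LC a s * m2 + LD a s * m3 + LB s * m4 := by ring
    rw [e] at key2
    refine key2.congr fun n => ?_
    have p1 := (hpos (k n + m1) (l n + m2) (l n + m3) (k n + m4)).1
    have p2 := (hpos (k n + m1) (l n + m2) (l n + m3) (k n + m4)).2.1
    have p3 := (hpos (k n) (l n) (l n) (k n)).1
    have p4 := (hpos (k n) (l n) (l n) (k n)).2.1
    unfold F1
    rw [← Real.log_div (div_pos p1 p2).ne' (div_pos p3 p4).ne']
    simp only [Function.comp]
    congr 1
    field_simp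
  · have key : Tendsto (fun n => (J3 a (k n + m1) (l n + m2) (l n + m3) (k n + m4) /
        J3 a (k n) (l n) (l n) (k n)) / (J2 a (k n + m1) (l n + m2) (l n + m3) (k n + m4) /
        J2 a (k n) (l n) (l n) (k n))) atTop (𝓝 (wt a m1 m2 m3 m4 s / (a ^ m2 * a ^ m3))) :=
      Tendsto.div (hT3 m1 m2 m3 m4) hT2 h0.ne'
    have key2 := (Real.continuousAt_log (div_pos (hwpos m1 m2 m3 m4) h0).ne').tendsto.comp key
    rw [logwt ha has hs] at key2
    refine key2.congr fun n => ?_
    have p1 := (hpos (k n + m1) (l n + m2) (l n + m3) (k n + m4)).2.2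
    have p2 := (hpos (k n + m1) (l n + m2) (l n + m3) (k n + m4)).2.1
    have p3 := (hpos (k n) (l n) (l n) (k n)).2.2
    have p4 := (hpos (k n) (l n) (l n) (k n)).2.1
    unfold F3
    rw [← Real.log_div (div_pos p1 p2).ne' (div_pos p3 p4).ne']
    simp only [Function.comp]
    congr 1
    field_simp

end Pool.Agent.Q178.CPX.TaskInc
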