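import Pool.Agent.Q178.CPX.Inc3

namespace Pool.Agent.Q178.CPX.TaskInc3

theorem main (hB : Pool.Agent.Q178.CPX.TaskConcB) (hM : Pool.Agent.Q178.CPX.TaskMaxSide) :
    Pool.Agent.Q178.CPX.TaskInc3 := Pool.Agent.Q178.CPX.Inc3.main hB hM

end Pool.Agent.Q178.CPX.TaskInc3
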