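import Pool.Agent.Q178.CPX.Stmts
set_option autoImplicit false

namespace Pool.Agent.Q178.CPX.TaskInj
open Filter Topology Set

theorem aux (a a' ρ s s' : ℝ) (h : Par a ρ s) (h' : Par a' ρ s') (hlt : s' ^ 2 < s ^ 2) : False := by
  obtain ⟨ha, has, hs, hρ, he, hl⟩ := h
  obtain ⟨ha', has', hs', _, he', hl'⟩ := h'
  have hy : 0 < 1 - s ^ 2 := by nlinarith
  have hy' : 0 < 1 - s' ^ 2 := by nlinarith
  have ha2 : 0 < a ^ 2 := by positivity
  have ha2' : 0 < a' ^ 2 := by positivity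
  have hm : 0 < s ^ 2 - a ^ 2 := by rw [← he]; positivity
  have hm' : 0 < s' ^ 2 - a' ^ 2 := by rw [← he']; positivity
  have h1 : Real.log (1 - s ^ 2) < Real.log (1 - s' ^ 2) := Real.log_lt_log hy (by linarith)
  have h2 : s ^ 2 - a ^ 2 < s' ^ 2 - a' ^ 2 := by rw [← he, ← he']; nlinarith
  have h3 : a' ^ 2 < a ^ 2 := by linarith
  have h4 : (s ^ 2 - a ^ 2) / a ^ 2 < (s' ^ 2 - a' ^ 2) / a' ^ 2 := by
    rw [div_lt_div_iff₀ ha2 ha2']
    nlinarith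
  have h5 : Real.log ((s ^ 2 - a ^ 2) / a ^ 2) < Real.log ((s' ^ 2 - a' ^ 2) / a' ^ 2) :=
    Real.log_lt_log (by positivity) h4
  nlinarith

theorem main : Pool.Agent.Q178.CPX.TaskInj := by
  intro a a' ρ s s' h h'
  have h1 : ¬ s' ^ 2 < s ^ 2 := fun hl => aux a a' ρ s s' h h' hl
  have h2 : ¬ s ^ 2 < s' ^ 2 := fun hl => aux a' a ρ s' s h' h hl
  have h3 : s ^ 2 = s' ^ 2 := le_antisymm (not_lt.1 h1) (not_lt.1 h2)
  obtain ⟨ha, has, hs, hρ, he, hl⟩ := h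
  obtain ⟨ha', has', hs', _, he', hl'⟩ := h'
  have h4 : a ^ 2 = a' ^ 2 := by rw [h3] at he; linarith
  exact ⟨(pow_left_inj₀ ha.le ha'.le two_ne_zero).1 h4,
    (pow_left_inj₀ (ha.trans has).le (ha'.trans has').le two_ne_zero).1 h3⟩

end Pool.Agent.Q178.CPX.TaskInj
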