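import Pool.Agent.Q178.CPX.Stmts

set_option autoImplicit false

open Filter Topology Set

namespace Pool.Agent.Q178.CPX.TaskIrr

private lemma log_tanh (x : ℝ) : Real.log (1 + Real.tanh x) - Real.log (1 - Real.tanh x) = 2 * x := by
  have h1 : -1 < Real.tanh x := Real.neg_one_lt_tanh x
  have h2 : Real.tanh x < 1 := Real.tanh_lt_one x
  have h3 := Real.artanh_eq_half_log (x := Real.tanh x) ⟨h1.le, h2.le⟩
  rw [Real.artanh_tanh, Real.log_div (by linarith) (by linarith)] at h3
  linarith

theorem main (hI : TaskIVT) (hJ : TaskInj) : Pool.Agent.Q178.CPX.TaskIrr := by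
  choose θ hθ ρ hρ using hI
  -- the set of the bad `c`
  by_contra hcon
  have hbad : ∀ (c : ℝ) (hc : 0 < c), Irrational c → ¬ Irrational (ρ c hc) := by
    intro c hc hci hri
    apply hcon
    refine ⟨_, ρ c hc, _, hρ c hc, hri, ?_, ?_⟩
    · obtain ⟨h1, h2, h3, h4, h5, h6⟩ := hρ c hc
      set a := Real.tanh (θ c hc) * Real.tanh (c * θ c hc) with ha
      set s := Real.tanh (θ c hc) with hs
      have hs0 : 0 < s := h1.trans h2
      have e1 : LA s + LB s = Real.log (1 - s ^ 2) := by
        unfold LA LB
        rw [← Real.log_mul (by linarith) (by linarith)]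
        congr 1; ring
      have e2 : LC a s + LD a s = Real.log ((s ^ 2 - a ^ 2) / a ^ 2) := by
        unfold LC LD
        rw [← Real.log_mul (div_pos (by linarith) h1).ne' (div_pos (by linarith) h1).ne']
        congr 1
        field_simp
        ring
      have h7 : Real.log (1 - s ^ 2) < 0 := Real.log_neg (by nlinarith) (by nlinarith)
      have h8 : Real.log ((s ^ 2 - a ^ 2) / a ^ 2) ≠ 0 := by
        intro h9
        rw [h9] at h6
        linarith
      have h10 : (LA s + LB s) / (LC a s + LD a s) = -ρ c hc := by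
        rw [e1, e2, div_eq_iff h8]
        linarith
      rw [h10]
      exact hri.neg
    · obtain ⟨h1, h2, h3, h4, h5, h6⟩ := hρ c hc
      have hs0 : 0 < Real.tanh (θ c hc) := h1.trans h2
      have hq0 : 0 < Real.tanh (c * θ c hc) := pos_of_mul_pos_right h1 hs0.le
      have e1 : LA (Real.tanh (θ c hc)) - LB (Real.tanh (θ c hc)) = -(2 * θ c hc) := by
        unfold LA LB
        have := log_tanh (θ c hc)
        linarith
      have hq1 := Real.tanh_lt_one (c * θ c hc)
      have e2 : LC (Real.tanh (θ c hc) * Real.tanh (c * θ c hc)) (Real.tanh (θ c hc)) -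
          LD (Real.tanh (θ c hc) * Real.tanh (c * θ c hc)) (Real.tanh (θ c hc)) =
          -(2 * (c * θ c hc)) := by
        unfold LC LD
        set s := Real.tanh (θ c hc) with hs
        set q := Real.tanh (c * θ c hc) with hq
        have f1 : (s - s * q) / (s * q) = (1 - q) / q := by
          field_simp
        have f2 : (s + s * q) / (s * q) = (1 + q) / q := by
          field_simp
        rw [f1, f2, Real.log_div (by linarith) hq0.ne', Real.log_div (by linarith) hq0.ne']
        have := log_tanh (c * θ c hc)
        linarith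
      rw [e1, e2]
      have hth := hθ c hc
      have h10 : -(2 * θ c hc) / -(2 * (c * θ c hc)) = c⁻¹ := by
        field_simp
      rw [h10]
      exact hci.inv
  have hinj : ∀ (c c' : ℝ) (hc : 0 < c) (hc' : 0 < c'), ρ c hc = ρ c' hc' → c = c' := by
    intro c c' hc hc' h
    have h1 := hρ c hc
    rw [h] at h1
    obtain ⟨h2, h3⟩ := hJ _ _ _ _ _ h1 (hρ c' hc')
    have h4 : θ c hc = θ c' hc' := Real.tanh_injective h3
    obtain ⟨g1, g2, -⟩ := h1
    have hs0 : 0 < Real.tanh (θ c hc) := g1.trans g2
    rw [← h3] at h2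
    have h5 := mul_left_cancel₀ hs0.ne' h2
    have h6 := Real.tanh_injective h5
    rw [← h4] at h6
    exact mul_right_cancel₀ (hθ c hc).ne' h6
  classical
  let R : ℝ → ℝ := fun c => if hc : 0 < c then ρ c hc else 0
  have hcount : {c : ℝ | 0 < c ∧ Irrational c}.Countable := by
    have hm : MapsTo R {c : ℝ | 0 < c ∧ Irrational c} (range ((↑) : ℚ → ℝ)) := by
      rintro c ⟨hc, hci⟩
      have h1 := hbad c hc hci
      have h2 : R c = ρ c hc := dif_pos hc
      rw [h2]
      unfold Irrational at h1
      push Not at h1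
      exact h1
    refine hm.countable_of_injOn ?_ (countable_range _)
    rintro c ⟨hc, -⟩ c' ⟨hc', -⟩ h
    have h2 : R c = ρ c hc := dif_pos hc
    have h3 : R c' = ρ c' hc' := dif_pos hc'
    rw [h2, h3] at h
    exact hinj c c' hc hc' h
  have hall : (Ioi (0 : ℝ)).Countable := by
    refine (hcount.union (countable_range ((↑) : ℚ → ℝ))).mono ?_
    intro c hc
    by_cases h : Irrational c
    · exact Or.inl ⟨hc, h⟩
    · right
      unfold Irrational at h
      push Not at h
      exact h
  have h0 := hall.measure_zero MeasureTheory.volume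
  rw [Real.volume_Ioi] at h0
  exact ENNReal.top_ne_zero h0

end Pool.Agent.Q178.CPX.TaskIrr
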