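import Pool.Agent.Q178.CPX.Stmts

namespace Pool.Agent.Q178.CPX.TaskKron

open Pool.Agent.Q178.CPX

theorem aux (x y : ℝ) : (2 * x) / (4 * y) = (x / y) / 2 := by
  ring

theorem main (h : TaskDense) : Pool.Agent.Q178.CPX.TaskKron := by
  intro A B C D h1 h2 e2 e3 T1 T3 ε hε
  have h1' : Irrational ((2 * (A + B)) / (4 * (C + D))) := by
    have h3 : (2 * (A + B)) / (4 * (C + D)) = ((A + B) / (C + D)) / ((2 : ℕ) : ℝ) := by
      have := aux (A + B) (C + D)
      simpa using this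
    rw [h3]
    exact h1.div_natCast (by norm_num)
  have h2' : Irrational ((2 * (A - B)) / (4 * (C - D))) := by
    have h3 : (2 * (A - B)) / (4 * (C - D)) = ((A - B) / (C - D)) / ((2 : ℕ) : ℝ) := by
      have := aux (A - B) (C - D)
      simpa using this
    rw [h3]
    exact h2.div_natCast (by norm_num)
  obtain ⟨p, q, hpq⟩ := h _ _ h1' (T1 + T3 - (C + D) * (e2 + e3)) ε hε
  obtain ⟨p', q', hpq'⟩ := h _ _ h2' (T1 - T3 - (C - D) * (e2 - e3)) ε hε
  refine ⟨p + p', e2 + (2 * q + 2 * q'), e3 + (2 * q - 2 * q'), p - p', ⟨q + q', by ring⟩,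
    ⟨q - q', by ring⟩, ?_, ?_⟩
  · push_cast
    rw [abs_lt] at *
    constructor <;> nlinarith [hpq.1, hpq.2, hpq'.1, hpq'.2]
  · push_cast
    rw [abs_lt] at *
    constructor <;> nlinarith [hpq.1, hpq.2, hpq'.1, hpq'.2]

end Pool.Agent.Q178.CPX.TaskKron
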