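import Pool.Agent.Q178.CPX.Stmts

set_option autoImplicit false

/-! MP_57aba6_an: for `l ≤ (ρ - η) k` the middle integral dominates. -/

namespace Pool.Agent.Q178.CPX.TaskLow

open Filter Topology Set Pool.Agent.Q178.CPX

theorem wt_eq (a x : ℝ) (k l : ℕ) : wt a k l l k x = |1 - x ^ 2| ^ k * |x ^ 2 - a ^ 2| ^ l := by
  unfold wt
  have h1 : 1 - x ^ 2 = -((x + 1) * (x - 1)) := by ring
  have h2 : x ^ 2 - a ^ 2 = (x + a) * (x - a) := by ring
  rw [h1, h2, abs_neg, abs_mul, abs_mul, mul_pow, mul_pow]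
  ring

theorem wt_cont (a : ℝ) (k l : ℕ) : Continuous (wt a k l l k) := by
  unfold wt
  fun_prop

theorem wt_nonneg (a x : ℝ) (k l : ℕ) : 0 ≤ wt a k l l k x := by
  rw [wt_eq]; positivity

/-- Par in logarithmic form -/
theorem log_bound (hM : TaskMaxSide) {a ρ s : ℝ} (hP : Par a ρ s) {x : ℝ} (hx : x ∈ Ioo a 1) :
    Real.log (1 - x ^ 2) + ρ * Real.log (x ^ 2 - a ^ 2) ≤ ρ * Real.log (a ^ 2) := by
  obtain ⟨ha, has, hs1, hρ, h1, h2⟩ := hP
  have hs0 : 0 < s := ha.trans has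
  have hU : 0 < 1 - s ^ 2 := by nlinarith
  have hV : 0 < s ^ 2 - a ^ 2 := by nlinarith
  have ha2 : 0 < a ^ 2 := by positivity
  have hx0 : 0 < x := ha.trans hx.1
  have hUx : 0 < 1 - x ^ 2 := by nlinarith [hx.2]
  have hVx : 0 < x ^ 2 - a ^ 2 := by nlinarith [hx.1]
  rw [Real.log_div hV.ne' ha2.ne'] at h2
  by_cases hxs : x = s
  · subst hxs
    linarith
  · have h3 := hM a ρ s ha has hs1 hρ h1 x ⟨hx.1.le, hx.2.le⟩ hxs
    have h4 := Real.log_lt_log (by positivity) h3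
    rw [Real.log_mul hUx.ne' (Real.rpow_pos_of_pos hVx ρ).ne',
      Real.log_mul hU.ne' (Real.rpow_pos_of_pos hV ρ).ne', Real.log_rpow hVx,
      Real.log_rpow hV] at h4
    linarith

/-- the integrand on the side interval -/
theorem side_bound (hM : TaskMaxSide) {a ρ s η : ℝ} (hη : 0 < η) (hP : Par a ρ s) {x : ℝ}
    (hx : x ∈ Ioo a 1) {k l : ℕ} (hl : (l : ℝ) ≤ (ρ - η) * k) :
    wt a k l l k x ≤ (a ^ 2) ^ l * ((1 - a ^ 2) ^ (η / ρ)) ^ k := by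
  have h5 := log_bound hM hP hx
  obtain ⟨ha, has, hs1, hρ, h1, h2⟩ := hP
  have ha2 : 0 < a ^ 2 := by positivity
  have hA : 0 < 1 - a ^ 2 := by nlinarith
  have hx0 : 0 < x := ha.trans hx.1
  have hUx : 0 < 1 - x ^ 2 := by nlinarith [hx.2]
  have hVx : 0 < x ^ 2 - a ^ 2 := by nlinarith [hx.1]
  have hUA : Real.log (1 - x ^ 2) ≤ Real.log (1 - a ^ 2) :=
    Real.log_le_log hUx (by nlinarith [hx.1])
  have hA0 : Real.log (1 - a ^ 2) ≤ 0 := Real.log_nonpos hA.le (by linarith)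
  rw [wt_eq, abs_of_pos hUx, abs_of_pos hVx]
  have hq : 0 < (1 - a ^ 2) ^ (η / ρ) := Real.rpow_pos_of_pos hA _
  rw [← Real.log_le_log_iff (by positivity) (by positivity), Real.log_mul (by positivity) (by positivity),
    Real.log_mul (by positivity) (by positivity), Real.log_pow (1 - x ^ 2) k,
    Real.log_pow (x ^ 2 - a ^ 2) l, Real.log_pow (a ^ 2) l,
    Real.log_pow ((1 - a ^ 2) ^ (η / ρ)) k, Real.log_rpow hA]
  have hkl : (0 : ℝ) ≤ l / ρ := by positivity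
  have hc : η / ρ * k ≤ k - l / ρ := by
    rw [div_mul_eq_mul_div, le_sub_iff_add_le, ← add_div, div_le_iff₀ hρ]
    linarith
  have e1 : (k : ℝ) * Real.log (1 - x ^ 2) + l * Real.log (x ^ 2 - a ^ 2) =
      (k - l / ρ) * Real.log (1 - x ^ 2) +
        l / ρ * (Real.log (1 - x ^ 2) + ρ * Real.log (x ^ 2 - a ^ 2)) := by
    field_simp
    ring
  have e2 : l / ρ * (ρ * Real.log (a ^ 2)) = l * Real.log (a ^ 2) := by
    rw [← mul_assoc, div_mul_cancel₀ _ hρ.ne']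
  rw [e1]
  have hU0 : Real.log (1 - x ^ 2) ≤ 0 := hUA.trans hA0
  have i1 : ((k : ℝ) - l / ρ) * Real.log (1 - x ^ 2) ≤ (η / ρ * k) * Real.log (1 - x ^ 2) :=
    mul_le_mul_of_nonpos_right hc hU0
  have i2 : (η / ρ * k) * Real.log (1 - x ^ 2) ≤ (η / ρ * k) * Real.log (1 - a ^ 2) :=
    mul_le_mul_of_nonneg_left hUA (by positivity)
  have i3 : l / ρ * (Real.log (1 - x ^ 2) + ρ * Real.log (x ^ 2 - a ^ 2)) ≤
      l / ρ * (ρ * Real.log (a ^ 2)) := mul_le_mul_of_nonneg_left h5 hkl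
  have i4 : (k : ℝ) * (η / ρ * Real.log (1 - a ^ 2)) = (η / ρ * k) * Real.log (1 - a ^ 2) := by ring
  linarith

/-- the integrand near zero -/
theorem mid_bound {a ρ δ : ℝ} (ha : 0 < a) (ha1 : a < 1) (hδ : 0 < δ)
    (hδa : δ < a) {x : ℝ} (hx : x ∈ Icc (-δ) δ) {k l : ℕ} (hl : (l : ℝ) ≤ ρ * k) :
    (a ^ 2) ^ l * ((1 - δ ^ 2) * (1 - δ ^ 2 / a ^ 2) ^ ρ) ^ k ≤ wt a k l l k x := by
  have ha2 : 0 < a ^ 2 := by positivity
  have hx2 : x ^ 2 ≤ δ ^ 2 := by nlinarith [hx.1, hx.2]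
  have hd2 : δ ^ 2 < a ^ 2 := by nlinarith
  have ha21 : a ^ 2 < 1 := by nlinarith
  have hw0 : 0 < 1 - δ ^ 2 / a ^ 2 := by
    rw [sub_pos, div_lt_one ha2]; exact hd2
  have hw1 : 1 - δ ^ 2 / a ^ 2 ≤ 1 := by
    have : 0 ≤ δ ^ 2 / a ^ 2 := by positivity
    linarith
  rw [wt_eq, abs_of_pos (by linarith : 0 < 1 - x ^ 2), abs_of_neg (by linarith : x ^ 2 - a ^ 2 < 0),
    mul_pow]
  have e1 : a ^ 2 * (1 - δ ^ 2 / a ^ 2) = a ^ 2 - δ ^ 2 := by
    field_simp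
  have i1 : ((1 - δ ^ 2 / a ^ 2) ^ ρ) ^ k ≤ (1 - δ ^ 2 / a ^ 2) ^ l := by
    rw [← Real.rpow_natCast ((1 - δ ^ 2 / a ^ 2) ^ ρ) k, ← Real.rpow_mul hw0.le,
      ← Real.rpow_natCast (1 - δ ^ 2 / a ^ 2) l]
    exact Real.rpow_le_rpow_of_exponent_ge hw0 hw1 hl
  calc (a ^ 2) ^ l * ((1 - δ ^ 2) ^ k * ((1 - δ ^ 2 / a ^ 2) ^ ρ) ^ k)
      ≤ (a ^ 2) ^ l * ((1 - δ ^ 2) ^ k * (1 - δ ^ 2 / a ^ 2) ^ l) := by
        refine mul_le_mul_of_nonneg_left (mul_le_mul_of_nonneg_left i1 ?_) (by positivity)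
        exact pow_nonneg (by linarith) _
    _ = (1 - δ ^ 2) ^ k * (a ^ 2 - δ ^ 2) ^ l := by
        rw [← e1, mul_pow]; ring
    _ ≤ (1 - x ^ 2) ^ k * (-(x ^ 2 - a ^ 2)) ^ l := by
        refine mul_le_mul (pow_le_pow_left₀ (by linarith) (by linarith) _)
          (pow_le_pow_left₀ (by linarith) (by linarith) _) (pow_nonneg (by linarith) _)
          (pow_nonneg (by linarith) _)

theorem main (hM : TaskMaxSide) : Pool.Agent.Q178.CPX.TaskLow := by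
  intro a ρ s hP η hη
  have hP' := hP
  obtain ⟨ha, has, hs1, hρ, h1, h2⟩ := hP'
  have ha1 : a < 1 := has.trans hs1
  have ha2 : 0 < a ^ 2 := by positivity
  have hA : 0 < 1 - a ^ 2 := by nlinarith
  set q : ℝ := (1 - a ^ 2) ^ (η / ρ) with hq
  have hq0 : 0 < q := Real.rpow_pos_of_pos hA _
  have hq1 : q < 1 := Real.rpow_lt_one hA.le (by linarith) (by positivity)
  -- choice of `δ`
  obtain ⟨δ, hδq, hδ0, hδa⟩ : ∃ δ : ℝ, q < (1 - δ ^ 2) * (1 - δ ^ 2 / a ^ 2) ^ ρ ∧ 0 < δ ∧ δ < a := by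
    have hc : ContinuousAt (fun δ : ℝ => (1 - δ ^ 2) * (1 - δ ^ 2 / a ^ 2) ^ ρ) 0 := by
      refine ContinuousAt.mul (by fun_prop) (ContinuousAt.rpow_const (by fun_prop) ?_)
      left; norm_num
    have h0 : q < (fun δ : ℝ => (1 - δ ^ 2) * (1 - δ ^ 2 / a ^ 2) ^ ρ) 0 := by
      simp only
      norm_num
      exact hq1
    have h3 : ∀ᶠ δ : ℝ in 𝓝[>] 0, q < (1 - δ ^ 2) * (1 - δ ^ 2 / a ^ 2) ^ ρ :=
      (hc.eventually (lt_mem_nhds h0)).filter_mono nhdsWithin_le_nhds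
    obtain ⟨δ, h4, h5⟩ := (h3.and (Ioo_mem_nhdsGT ha)).exists
    exact ⟨δ, h4, h5.1, h5.2⟩
  set B : ℝ := (1 - δ ^ 2) * (1 - δ ^ 2 / a ^ 2) ^ ρ with hB
  have hB0 : 0 < B := hq0.trans hδq
  have hqB : q / B < 1 := (div_lt_one hB0).2 hδq
  have ht := tendsto_pow_atTop_nhds_zero_of_lt_one (by positivity : (0:ℝ) ≤ q / B) hqB
  filter_upwards [ht.eventually (gt_mem_nhds (by positivity : (0:ℝ) < 2 * δ))] with k hk l hl
  have hlρ : (l : ℝ) ≤ ρ * k := hl.trans (by nlinarith [Nat.cast_nonneg (α := ℝ) k])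
  have hint : ∀ u v : ℝ, IntervalIntegrable (wt a k l l k) MeasureTheory.volume u v := fun u v =>
    (wt_cont a k l).intervalIntegrable _ _
  -- the side integral
  have hJ3 : J3 a k l l k ≤ (a ^ 2) ^ l * q ^ k := by
    unfold J3
    have i1 : (∫ x in a..(1 : ℝ), wt a k l l k x) ≤ ∫ x in a..(1 : ℝ), (a ^ 2) ^ l * q ^ k :=
      intervalIntegral.integral_mono_on_of_le_Ioo ha1.le (hint _ _) (by simp)
        fun x hx => side_bound hM hη hP hx hl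
    refine i1.trans ?_
    rw [intervalIntegral.integral_const, smul_eq_mul]
    have : 0 ≤ (a ^ 2) ^ l * q ^ k := by positivity
    nlinarith
  -- the middle integral
  have hJ2 : 2 * δ * ((a ^ 2) ^ l * B ^ k) ≤ J2 a k l l k := by
    unfold J2
    have i1 : (∫ x in (-δ)..δ, (a ^ 2) ^ l * B ^ k) ≤ ∫ x in (-δ)..δ, wt a k l l k x :=
      intervalIntegral.integral_mono_on (by linarith) (by simp) (hint _ _)
        fun x hx => mid_bound ha ha1 hδ0 hδa hx hlρ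
    have i2 : (∫ x in (-δ)..δ, wt a k l l k x) ≤ ∫ x in (-a)..a, wt a k l l k x :=
      intervalIntegral.integral_mono_interval (by linarith) (by linarith) hδa.le
        (Eventually.of_forall fun x => wt_nonneg a x k l) (hint _ _)
    rw [intervalIntegral.integral_const, smul_eq_mul] at i1
    have e : δ - -δ = 2 * δ := by ring
    rw [e] at i1
    exact i1.trans i2
  have hpos : 0 < 2 * δ * ((a ^ 2) ^ l * B ^ k) := by positivity
  have hqk : q ^ k < 2 * δ * B ^ k := by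
    have : (q / B) ^ k = q ^ k / B ^ k := div_pow _ _ _
    rw [this, div_lt_iff₀ (by positivity)] at hk
    exact hk
  unfold r
  rw [div_lt_one (hpos.trans_le hJ2)]
  calc J3 a k l l k ≤ (a ^ 2) ^ l * q ^ k := hJ3
    _ < (a ^ 2) ^ l * (2 * δ * B ^ k) := mul_lt_mul_of_pos_left hqk (by positivity)
    _ = 2 * δ * ((a ^ 2) ^ l * B ^ k) := by ring
    _ ≤ J2 a k l l k := hJ2

end Pool.Agent.Q178.CPX.TaskLow
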