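import Pool.Agent.Q178.CPX.Stmts

namespace Pool.Agent.Q178.CPX.TaskMain
open Filter Topology Set Pool.Agent.Q178.CPX

private lemma perturb (D ε : ℝ) (hε : 0 < ε) : ∃ D' : ℝ, D' ≠ 0 ∧ |D' - D| ≤ ε / 8 := by
  by_cases h : D = 0
  · exact ⟨ε / 8, by positivity, by rw [h, sub_zero, abs_of_pos (by positivity)]⟩
  · exact ⟨D, h, by simp; positivity⟩

theorem main (hApprox : TaskApprox) (hPoly : TaskPoly) : TaskMain := by
  obtain ⟨a, ha, ha1, hD⟩ := hApprox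
  refine ⟨a, ha, ha1, fun f ε hε => ?_⟩
  obtain ⟨D1, hD1, hD1'⟩ := perturb (f (-a) - f (-1)) ε hε
  obtain ⟨D2, hD2, hD2'⟩ := perturb (f a - f (-a)) ε hε
  obtain ⟨D3, hD3, hD3'⟩ := perturb (f 1 - f a) ε hε
  obtain ⟨i, j, k, l, c, hc, h1, h2, h3⟩ := hD D1 D2 D3 hD1 hD2 hD3 (ε / 8) (by positivity)
  obtain ⟨P, hP, hcrit⟩ := hPoly a i j k l
  refine ⟨Polynomial.C c * P + Polynomial.C (f (-1) - c * P.eval (-1)), hcrit _ _ hc, ?_⟩
  have e1 := hP (-1) (-a)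
  have e2 := hP (-a) a
  have e3 := hP a 1
  rw [← e1] at h1
  rw [← e2] at h2
  rw [← e3] at h3
  rw [abs_lt] at h1 h2 h3
  rw [abs_le] at hD1' hD2' hD3'
  intro x hx
  simp only [Polynomial.eval_add, Polynomial.eval_mul, Polynomial.eval_C]
  simp only [mem_insert_iff, mem_singleton_iff] at hx
  rcases hx with rfl | rfl | rfl | rfl
  · rw [abs_lt]; constructor <;> linarith
  · rw [abs_lt]
    constructor <;> linarith [h1.1, h1.2, hD1'.1, hD1'.2]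
  · rw [abs_lt]
    constructor <;> linarith [h1.1, h1.2, hD1'.1, hD1'.2, h2.1, h2.2, hD2'.1, hD2'.2]
  · rw [abs_lt]
    constructor <;> linarith [h1.1, h1.2, hD1'.1, hD1'.2, h2.1, h2.2, hD2'.1, hD2'.2, h3.1, h3.2,
      hD3'.1, hD3'.2]

end Pool.Agent.Q178.CPX.TaskMain
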