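import Pool.Agent.Q178.CPX.Stmts

/-! The unique maximum of `(1-x²)(a²-x²)^ρ` on `[-a,a]`. -/

namespace Pool.Agent.Q178.CPX.TaskMaxMid
open Set

theorem main : Pool.Agent.Q178.CPX.TaskMaxMid := by
  intro a ρ ha ha1 hρ x hx hx0
  have hx2 : 0 < x ^ 2 := by positivity
  have hxa : x ^ 2 ≤ a ^ 2 := by
    have := abs_le.2 ⟨hx.1, hx.2⟩
    rw [← abs_of_pos ha] at this
    exact sq_le_sq.2 (by simpa [abs_of_pos ha] using this)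
  have ha2 : a ^ 2 < 1 := by nlinarith
  have h0 : (0 : ℝ) ≤ a ^ 2 - x ^ 2 := by linarith
  have h1 : (a ^ 2 - x ^ 2) ^ ρ < (a ^ 2 - (0 : ℝ) ^ 2) ^ ρ := by
    refine Real.rpow_lt_rpow h0 ?_ hρ
    linarith [show (0 : ℝ) ^ 2 = 0 by norm_num]
  have h2 : 0 ≤ (a ^ 2 - x ^ 2) ^ ρ := Real.rpow_nonneg h0 ρ
  have h3 : 0 < 1 - x ^ 2 := by linarith
  have h4 : 1 - x ^ 2 < 1 - (0 : ℝ) ^ 2 := by norm_num; positivity
  exact mul_lt_mul'' h4 h1 h3.le h2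

end Pool.Agent.Q178.CPX.TaskMaxMid
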