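import Pool.Agent.Q178.CPX.Stmts

set_option autoImplicit false

/-! Proof of `TaskMaxSide` (helper95). -/

namespace Pool.Agent.Q178.CPX.TaskMaxSide

open Set

theorem main : Pool.Agent.Q178.CPX.TaskMaxSide := by
  intro a ρ s ha has hs1 hρ hbal x hx hxs
  have hs0 : 0 < s := ha.trans has
  have hx0 : 0 < x := lt_of_lt_of_le ha hx.1
  have ht1 : 0 < 1 - s ^ 2 := by nlinarith
  have hta : 0 < s ^ 2 - a ^ 2 := by nlinarith
  have hR : 0 < (1 - s ^ 2) * (s ^ 2 - a ^ 2) ^ ρ := mul_pos ht1 (Real.rpow_pos_of_pos hta ρ)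
  have hy : x ^ 2 ≠ s ^ 2 := by
    intro h
    exact hxs (by nlinarith [sq_nonneg (x - s)] : x = s)
  have hy1 : 0 ≤ 1 - x ^ 2 := by nlinarith [hx.2]
  have hya : 0 ≤ x ^ 2 - a ^ 2 := by nlinarith [hx.1]
  rcases hy1.eq_or_lt with h1 | h1
  · rw [← h1, zero_mul]; exact hR
  rcases hya.eq_or_lt with h2 | h2
  · rw [← h2, Real.zero_rpow hρ.ne', mul_zero]; exact hR
  have hL : 0 < (1 - x ^ 2) * (x ^ 2 - a ^ 2) ^ ρ := mul_pos h1 (Real.rpow_pos_of_pos h2 ρ)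
  rw [← Real.log_lt_log_iff hL hR, Real.log_mul h1.ne' (Real.rpow_pos_of_pos h2 ρ).ne',
    Real.log_mul ht1.ne' (Real.rpow_pos_of_pos hta ρ).ne', Real.log_rpow h2, Real.log_rpow hta]
  have hp : 0 < (1 - x ^ 2) / (1 - s ^ 2) := div_pos h1 ht1
  have hp1 : (1 - x ^ 2) / (1 - s ^ 2) ≠ 1 := by
    rw [Ne, div_eq_one_iff_eq ht1.ne']
    intro h; apply hy; linarith
  have hq : 0 < (x ^ 2 - a ^ 2) / (s ^ 2 - a ^ 2) := div_pos h2 hta
  have e1 := Real.log_lt_sub_one_of_pos hp hp1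
  have e2 := Real.log_le_sub_one_of_pos hq
  rw [Real.log_div h1.ne' ht1.ne'] at e1
  rw [Real.log_div h2.ne' hta.ne'] at e2
  have e3 := mul_le_mul_of_nonneg_left e2 hρ.le
  have e4 : (1 - x ^ 2) / (1 - s ^ 2) - 1 + ρ * ((x ^ 2 - a ^ 2) / (s ^ 2 - a ^ 2) - 1) = 0 := by
    rw [← hbal]
    field_simp
    linear_combination (-1 : ℝ) * hbal
  linarith

end Pool.Agent.Q178.CPX.TaskMaxSide
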