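import Pool.Agent.Q178.CPX.Stmts

namespace Pool.Agent.Q178.CPX.TaskPoly

open Polynomial

theorem anti : Pool.Agent.Q178.CPX.TaskAnti := by
  intro q
  induction q using Polynomial.induction_on' with
  | add p q hp hq =>
    obtain ⟨P, hP⟩ := hp
    obtain ⟨Q, hQ⟩ := hq
    exact ⟨P + Q, by rw [Polynomial.derivative_add, hP, hQ]⟩
  | monomial n b =>
    refine ⟨Polynomial.monomial (n + 1) (b / (n + 1)), ?_⟩
    rw [Polynomial.derivative_monomial]
    have h : (n : ℝ) + 1 ≠ 0 := by positivity
    simp only [Nat.add_sub_cancel]
    congr 1
    push_cast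
    field_simp

theorem aux (z : ℂ) (n : ℕ) (h : z ^ n = 0) : z = 0 := by
  by_contra hne
  exact pow_ne_zero _ hne h

theorem main : Pool.Agent.Q178.CPX.TaskPoly := by
  intro a i j k l
  obtain ⟨p, hp⟩ := anti ((Polynomial.X + Polynomial.C 1) ^ i * (Polynomial.X + Polynomial.C a) ^ j *
    (Polynomial.X - Polynomial.C a) ^ k * (Polynomial.X - Polynomial.C 1) ^ l)
  refine ⟨p, ?_, ?_⟩
  · intro x y
    have h : ∀ t : ℝ, HasDerivAt (fun s => p.eval s) (sw a i j k l t) t := by
      intro t
      have h1 := p.hasDerivAt t
      rw [hp] at h1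
      simpa [sw] using h1
    symm
    refine intervalIntegral.integral_eq_sub_of_hasDerivAt (fun t _ => h t) ?_
    refine Continuous.intervalIntegrable ?_ _ _
    unfold sw
    fun_prop
  · intro c d hc z hz
    rw [Polynomial.derivative_add, Polynomial.derivative_C_mul, hp, Polynomial.derivative_C,
      add_zero] at hz
    simp only [map_mul, map_pow, map_add, map_sub, Polynomial.aeval_X, Polynomial.aeval_C,
      map_one] at hz
    have hc' : (algebraMap ℝ ℂ) c ≠ 0 := by
      simpa using hc
    rcases mul_eq_zero.1 hz with h | h
    · exact absurd h hc'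
    rcases mul_eq_zero.1 h with h | h
    · rcases mul_eq_zero.1 h with h | h
      · rcases mul_eq_zero.1 h with h | h
        · refine ⟨-1, by simp, ?_⟩
          have h1 := aux _ _ h
          push_cast
          linear_combination h1
        · refine ⟨-a, by simp, ?_⟩
          have h1 := aux _ _ h
          push_cast
          simp only [Complex.coe_algebraMap] at h1
          linear_combination h1
      · refine ⟨a, by simp, ?_⟩
        have h1 := aux _ _ h
        simp only [Complex.coe_algebraMap] at h1
        linear_combination h1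
    · refine ⟨1, by simp, ?_⟩
      have h1 := aux _ _ h
      push_cast
      linear_combination h1

end Pool.Agent.Q178.CPX.TaskPoly
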