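import Pool.Agent.Q178.CPX.Stmts

/-! Positivity of the three integrals. -/

namespace Pool.Agent.Q178.CPX.TaskPos
open Set

theorem wt_cont (a : ℝ) (i j k l : ℕ) : Continuous (wt a i j k l) := by
  unfold wt
  fun_prop

theorem wt_pos (a : ℝ) (i j k l : ℕ) (x : ℝ) (h1 : x + 1 ≠ 0) (h2 : x + a ≠ 0) (h3 : x - a ≠ 0)
    (h4 : x - 1 ≠ 0) : 0 < wt a i j k l x := by
  unfold wt
  positivity

theorem main : Pool.Agent.Q178.CPX.TaskPos := by
  intro a ha ha1 i j k l
  refine ⟨?_, ?_, ?_⟩
  · refine intervalIntegral.intervalIntegral_pos_of_pos_on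
      ((wt_cont a i j k l).intervalIntegrable _ _) (fun x hx => ?_) (by linarith)
    have h1 := hx.1
    have h2 := hx.2
    exact wt_pos a i j k l x (by intro h; linarith) (by intro h; linarith) (by intro h; linarith)
      (by intro h; linarith)
  · refine intervalIntegral.intervalIntegral_pos_of_pos_on
      ((wt_cont a i j k l).intervalIntegrable _ _) (fun x hx => ?_) (by linarith)
    have h1 := hx.1
    have h2 := hx.2
    exact wt_pos a i j k l x (by intro h; linarith) (by intro h; linarith) (by intro h; linarith)
      (by intro h; linarith)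
  · refine intervalIntegral.intervalIntegral_pos_of_pos_on
      ((wt_cont a i j k l).intervalIntegrable _ _) (fun x hx => ?_) (by linarith)
    have h1 := hx.1
    have h2 := hx.2
    exact wt_pos a i j k l x (by intro h; linarith) (by intro h; linarith) (by intro h; linarith)
      (by intro h; linarith)

end Pool.Agent.Q178.CPX.TaskPos
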