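import Pool.Agent.Q178.CPX.Stmts

set_option autoImplicit false

open Filter Topology Set

namespace Pool.Agent.Q178.CPX.TaskRho

open Pool.Agent.Q178.CPX

theorem main (hL : Pool.Agent.Q178.CPX.TaskLow) (hU : Pool.Agent.Q178.CPX.TaskUp) :
    Pool.Agent.Q178.CPX.TaskRho := by
  intro a ρ s hP K l h
  rw [Metric.tendsto_atTop']
  intro ε hε
  have h1 := hL a ρ s hP (ε / 2) (by linarith)
  have h2 := hU a ρ s hP (ε / 2) (by linarith) K
  obtain ⟨N, hN⟩ := eventually_atTop.1 ((h1.and h2).and (eventually_gt_atTop 0))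
  refine ⟨N, fun k hk => ?_⟩
  obtain ⟨⟨ha, hb⟩, hc⟩ := hN k hk.le
  have hc' : (0 : ℝ) < k := by exact_mod_cast hc
  have h3 : (ρ - ε / 2) * k < (l k : ℝ) := by
    by_contra hcon
    have := ha (l k) (not_lt.1 hcon)
    linarith [(h k).1]
  have h4 : (l k : ℝ) < (ρ + ε / 2) * k := by
    by_contra hcon
    have := hb (l k) (not_lt.1 hcon)
    linarith [(h k).2]
  rw [Real.dist_eq, abs_lt]
  have h5 : ρ - ε / 2 < (l k : ℝ) / k := (lt_div_iff₀ hc').2 h3
  have h6 : (l k : ℝ) / k < ρ + ε / 2 := (div_lt_iff₀ hc').2 h4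
  constructor <;> linarith

end Pool.Agent.Q178.CPX.TaskRho
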