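import Pool.Agent.Q178.CPX.Stmts

set_option autoImplicit false

namespace Pool.Agent.Q178.CPX.TaskShift

open Filter Topology Set Pool.Agent.Q178.CPX

lemma tendsto_l {ρ : ℝ} (hρ : 0 < ρ) {k l : ℕ → ℕ} (hk : Tendsto k atTop atTop)
    (hl : Tendsto (fun n => (l n : ℝ) / (k n : ℝ)) atTop (𝓝 ρ)) (L : ℕ) : ∀ᶠ n in atTop, L ≤ l n := by
  have hk' : Tendsto (fun n => (k n : ℝ)) atTop atTop := tendsto_natCast_atTop_atTop.comp hk
  have h1 := hl.pos_mul_atTop hρ hk'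
  filter_upwards [h1.eventually_ge_atTop (L : ℝ), hk.eventually_ge_atTop 1] with n h2 h3
  have h4 : (k n : ℝ) ≠ 0 := by
    have : (1 : ℝ) ≤ k n := by exact_mod_cast h3
    linarith
  rw [div_mul_cancel₀ _ h4] at h2
  exact_mod_cast h2

lemma gen (G : ℕ → ℕ → ℕ → ℕ → ℝ) (c1 c2 c3 c4 ρ : ℝ) (hρ : 0 < ρ)
    (h : ∀ k l : ℕ → ℕ, Tendsto k atTop atTop → Tendsto (fun n => (l n : ℝ) / (k n : ℝ)) atTop (𝓝 ρ) →
      ∀ m1 m2 m3 m4 : ℕ, Tendsto (fun n => G (k n + m1) (l n + m2) (l n + m3) (k n + m4) -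
        G (k n) (l n) (l n) (k n)) atTop (𝓝 (c1 * m1 + c2 * m2 + c3 * m3 + c4 * m4)))
    (k l : ℕ → ℕ) (hk : Tendsto k atTop atTop)
    (hl : Tendsto (fun n => (l n : ℝ) / (k n : ℝ)) atTop (𝓝 ρ)) (m1 m2 m3 m4 : ℤ) :
    Tendsto (fun n => G ((k n + m1).toNat) ((l n + m2).toNat) ((l n + m3).toNat) ((k n + m4).toNat) -
      G (k n) (l n) (l n) (k n)) atTop (𝓝 (c1 * m1 + c2 * m2 + c3 * m3 + c4 * m4)) := by
  set L : ℕ := m1.natAbs + m2.natAbs + m3.natAbs + m4.natAbs with hL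
  have hk' : Tendsto (fun n => (k n : ℝ)) atTop atTop := tendsto_natCast_atTop_atTop.comp hk
  have hk1 : Tendsto (fun n => k n - L) atTop atTop := (tendsto_sub_atTop_nat L).comp hk
  have hlL := tendsto_l hρ hk hl L
  have hkL := hk.eventually_ge_atTop L
  have hl1 : Tendsto (fun n => ((l n - L : ℕ) : ℝ) / ((k n - L : ℕ) : ℝ)) atTop (𝓝 ρ) := by
    have h0 : Tendsto (fun n => (L : ℝ) / (k n : ℝ)) atTop (𝓝 0) := hk'.const_div_atTop _
    have h1 : Tendsto (fun n => ((l n : ℝ) / (k n : ℝ) - (L : ℝ) / (k n : ℝ)) / (1 - (L : ℝ) / (k n : ℝ)))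
        atTop (𝓝 ((ρ - 0) / (1 - 0))) :=
      (hl.sub h0).div (tendsto_const_nhds.sub h0) (by norm_num)
    simp only [sub_zero, div_one] at h1
    refine h1.congr' ?_
    filter_upwards [hlL, hkL, hk.eventually_ge_atTop 1] with n h2 h3 h4
    have h5 : (k n : ℝ) ≠ 0 := by
      have : (1 : ℝ) ≤ k n := by exact_mod_cast h4
      linarith
    rw [Nat.cast_sub h2, Nat.cast_sub h3, ← sub_div]
    rw [show (1 : ℝ) - (L : ℝ) / (k n : ℝ) = ((k n : ℝ) - L) / (k n : ℝ) by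
      rw [sub_div, div_self h5]]
    rw [div_div_div_cancel_right₀ h5]
  have hA := h (fun n => k n - L) (fun n => l n - L) hk1 hl1 L L L L
  have hB := h (fun n => k n - L) (fun n => l n - L) hk1 hl1 (m1 + L).toNat (m2 + L).toNat
    (m3 + L).toNat (m4 + L).toNat
  have hC := hB.sub hA
  have c1' : (((m1 + L).toNat : ℕ) : ℝ) = (m1 : ℝ) + L := by
    have : (((m1 + L).toNat : ℕ) : ℤ) = m1 + L := Int.toNat_of_nonneg (by omega)
    exact_mod_cast this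
  have c2' : (((m2 + L).toNat : ℕ) : ℝ) = (m2 : ℝ) + L := by
    have : (((m2 + L).toNat : ℕ) : ℤ) = m2 + L := Int.toNat_of_nonneg (by omega)
    exact_mod_cast this
  have c3' : (((m3 + L).toNat : ℕ) : ℝ) = (m3 : ℝ) + L := by
    have : (((m3 + L).toNat : ℕ) : ℤ) = m3 + L := Int.toNat_of_nonneg (by omega)
    exact_mod_cast this
  have c4' : (((m4 + L).toNat : ℕ) : ℝ) = (m4 : ℝ) + L := by
    have : (((m4 + L).toNat : ℕ) : ℤ) = m4 + L := Int.toNat_of_nonneg (by omega)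
    exact_mod_cast this
  rw [c1', c2', c3', c4'] at hC
  have e : c1 * ((m1 : ℝ) + L) + c2 * ((m2 : ℝ) + L) + c3 * ((m3 : ℝ) + L) + c4 * ((m4 : ℝ) + L) -
      (c1 * L + c2 * L + c3 * L + c4 * L) = c1 * m1 + c2 * m2 + c3 * m3 + c4 * m4 := by ring
  rw [e] at hC
  refine hC.congr' ?_
  filter_upwards [hlL, hkL] with n h2 h3
  have g1 : k n - L + (m1 + L).toNat = ((k n : ℤ) + m1).toNat := by omega
  have g2 : l n - L + (m2 + L).toNat = ((l n : ℤ) + m2).toNat := by omega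
  have g3 : l n - L + (m3 + L).toNat = ((l n : ℤ) + m3).toNat := by omega
  have g4 : k n - L + (m4 + L).toNat = ((k n : ℤ) + m4).toNat := by omega
  have g5 : k n - L + L = k n := by omega
  have g6 : l n - L + L = l n := by omega
  show G (k n - L + (m1 + L).toNat) (l n - L + (m2 + L).toNat) (l n - L + (m3 + L).toNat)
      (k n - L + (m4 + L).toNat) - G (k n - L) (l n - L) (l n - L) (k n - L) -
    (G (k n - L + L) (l n - L + L) (l n - L + L) (k n - L + L) -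
      G (k n - L) (l n - L) (l n - L) (k n - L)) = _
  rw [g1, g2, g3, g4, g5, g6]
  ring

theorem main (h : TaskInc) : Pool.Agent.Q178.CPX.TaskShift := by
  intro a ρ s hP k l hk hl m1 m2 m3 m4
  have hρ : 0 < ρ := hP.2.2.2.1
  exact ⟨gen (F1 a) _ _ _ _ ρ hρ (fun k l hk hl m1 m2 m3 m4 => (h a ρ s hP k l hk hl m1 m2 m3 m4).1)
      k l hk hl m1 m2 m3 m4,
    gen (F3 a) _ _ _ _ ρ hρ (fun k l hk hl m1 m2 m3 m4 => (h a ρ s hP k l hk hl m1 m2 m3 m4).2)
      k l hk hl m1 m2 m3 m4⟩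

end Pool.Agent.Q178.CPX.TaskShift
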