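import Pool.Agent.Q178.CPX.Stmts

set_option autoImplicit false

open Set

namespace Pool.Agent.Q178.CPX.TaskSign

open Pool.Agent.Q178.CPX

theorem neg_case (y : ℝ) (n : ℕ) (h : y ≤ 0) : y ^ n = (-1) ^ n * |y| ^ n := by
  rw [abs_of_nonpos h, ← mul_pow]
  congr 1
  ring

theorem pos_case (y : ℝ) (n : ℕ) (h : 0 ≤ y) : y ^ n = |y| ^ n := by
  rw [abs_of_nonneg h]

theorem main : Pool.Agent.Q178.CPX.TaskSign := by
  intro a ha ha1 i j k l
  refine ⟨?_, ?_, ?_⟩
  · rw [J1, ← intervalIntegral.integral_const_mul]
    refine intervalIntegral.integral_congr fun x hx => ?_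
    rw [uIcc_of_le (by linarith)] at hx
    simp only [sw, wt]
    rw [pos_case (x + 1) i (by linarith [hx.1]), neg_case (x + a) j (by linarith [hx.2]),
      neg_case (x - a) k (by linarith [hx.2]), neg_case (x - 1) l (by linarith [hx.2])]
    ring
  · rw [J2, ← intervalIntegral.integral_const_mul]
    refine intervalIntegral.integral_congr fun x hx => ?_
    rw [uIcc_of_le (by linarith)] at hx
    simp only [sw, wt]
    rw [pos_case (x + 1) i (by linarith [hx.1]), pos_case (x + a) j (by linarith [hx.1]),
      neg_case (x - a) k (by linarith [hx.2]), neg_case (x - 1) l (by linarith [hx.2])]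
    ring
  · rw [J3, ← intervalIntegral.integral_const_mul]
    refine intervalIntegral.integral_congr fun x hx => ?_
    rw [uIcc_of_le (by linarith)] at hx
    simp only [sw, wt]
    rw [pos_case (x + 1) i (by linarith [hx.1]), pos_case (x + a) j (by linarith [hx.1]),
      pos_case (x - a) k (by linarith [hx.1]), neg_case (x - 1) l (by linarith [hx.2])]
    ring

end Pool.Agent.Q178.CPX.TaskSign
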