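import Pool.Agent.Q178.CPX.Stmts

set_option autoImplicit false

namespace Pool.Agent.Q178.CPX.TaskSub
open Filter Topology Set

theorem main : Pool.Agent.Q178.CPX.TaskSub := by
  intro G l K hG
  obtain ⟨e, he⟩ : ∃ e : ℕ, ∃ᶠ n in atTop, l n % 2 = e := by
    by_contra hcon
    push Not at hcon
    have h0 := hcon 0
    have h1 := hcon 1
    obtain ⟨n, hn0, hn1⟩ := (h0.and h1).exists
    omega
  obtain ⟨φ, hφ, h⟩ := Filter.extraction_of_frequently_atTop he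
  obtain ⟨g, -, ψ, hψ, ht⟩ := (isCompact_Icc (a := (0 : ℝ)) (b := K)).tendsto_subseq
    (x := fun n => G (φ n)) (fun n => ⟨(hG _).1, (hG _).2⟩)
  exact ⟨φ ∘ ψ, hφ.comp hψ, g, ht, e, fun n => h (ψ n)⟩

end Pool.Agent.Q178.CPX.TaskSub
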