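import Pool.Agent.Q178.CPX.Stmts

/-! The substitution `x ↦ -x`. -/

namespace Pool.Agent.Q178.CPX.TaskSym

theorem wt_neg (a : ℝ) (i j k l : ℕ) (x : ℝ) : wt a i j k l (-x) = wt a l k j i x := by
  unfold wt
  have h1 : |-x + 1| = |x - 1| := by rw [← abs_neg]; congr 1; ring
  have h2 : |-x + a| = |x - a| := by rw [← abs_neg]; congr 1; ring
  have h3 : |-x - a| = |x + a| := by rw [← abs_neg]; congr 1; ring
  have h4 : |-x - 1| = |x + 1| := by rw [← abs_neg]; congr 1; ring
  rw [h1, h2, h3, h4]
  ring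

theorem main : Pool.Agent.Q178.CPX.TaskSym := by
  intro a i j k l
  have h := intervalIntegral.integral_comp_neg (a := a) (b := 1) (wt a i j k l)
  unfold J1 J3
  rw [← h]
  exact intervalIntegral.integral_congr fun x _ => wt_neg a i j k l x

end Pool.Agent.Q178.CPX.TaskSym
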