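import Pool.Agent.Q178.CPX.Stmts

namespace Pool.Agent.Q178.CPX.TaskTriple
open Filter Topology Set Pool.Agent.Q178.CPX

theorem main (hChoice : TaskChoice) (hRho : TaskRho) (hSub : TaskSub) (hKron : TaskKron)
    (hShift : TaskShift) (hIrr : TaskIrr) (hSym : TaskSym) : TaskTriple := by
  obtain ⟨a, ρ, s, hpar, hρ, h1, h2⟩ := hIrr
  have hpar' := hpar
  obtain ⟨ha, has, hs1, hρ0, hbal, hlog⟩ := hpar
  have ha1 : a < 1 := has.trans hs1
  have hs0 : 0 < s := ha.trans has
  have h2a : 2 * a ^ 2 < 1 := by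
    by_contra hcon
    push Not at hcon
    have hss : s ^ 2 < 1 := by nlinarith
    have hsa : a ^ 2 < s ^ 2 := by nlinarith
    have hle : (s ^ 2 - a ^ 2) / a ^ 2 ≤ 1 := by
      rw [div_le_one (by positivity)]; linarith
    have hn : Real.log ((s ^ 2 - a ^ 2) / a ^ 2) ≤ 0 :=
      Real.log_nonpos (div_nonneg (by linarith) (by positivity)) hle
    have hn2 : Real.log (1 - s ^ 2) < 0 := Real.log_neg (by linarith) (by nlinarith)
    nlinarith [mul_nonneg hρ0.le (neg_nonneg.mpr hn)]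
  obtain ⟨K, hK⟩ := hChoice a ha h2a
  choose l hl using hK
  have hlim := hRho a ρ s hpar' K l hl
  obtain ⟨φ, hφ, g, hg, e, he⟩ := hSub (fun n => Real.log (r a n (l n))) l (Real.log K) (by
    intro n
    exact ⟨Real.log_nonneg (hl n).1, Real.log_le_log (by linarith [(hl n).1]) (hl n).2⟩)
  refine ⟨a, ha, ha1, fun e2 e3 T1 T3 ε hε => ?_⟩
  obtain ⟨m1, m2, m3, m4, he2, he3, hm1, hm3⟩ := hKron (LA s) (LB s) (LC a s) (LD a s) h1 h2
    ((e2 : ℤ) - e) ((e3 : ℤ) - e) (T1 - g) (T3 - g) (ε / 2) (half_pos hε)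
  have hφt : Tendsto φ atTop atTop := hφ.tendsto_atTop
  have hlim' : Tendsto (fun n => (l (φ n) : ℝ) / (φ n : ℝ)) atTop (𝓝 ρ) := hlim.comp hφt
  obtain ⟨hA, hB⟩ := hShift a ρ s hpar' φ (fun n => l (φ n)) hφt hlim' m1 m2 m3 m4
  have hF3 : ∀ k l, F3 a k l l k = Real.log (r a k l) := fun k l => rfl
  have hF1 : ∀ k l, F1 a k l l k = Real.log (r a k l) := by
    intro k l
    unfold F1 r
    rw [hSym]
  have hA' := hA.add hg
  have hB' := hB.add hg
  simp only [hF1, hF3, sub_add_cancel] at hA' hB'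
  have hlt : Tendsto (fun n => l (φ n)) atTop atTop := by
    have h := hlim'.pos_mul_atTop hρ0 (tendsto_natCast_atTop_atTop.comp hφt)
    have h' : Tendsto (fun n => (l (φ n) : ℝ)) atTop atTop := by
      refine h.congr' ?_
      filter_upwards [hφt.eventually (eventually_gt_atTop 0)] with n hn
      have : (φ n : ℝ) ≠ 0 := by exact_mod_cast hn.ne'
      simp only [Function.comp]
      field_simp
    exact tendsto_natCast_atTop_iff.mp h'
  have ev1 := (hA'.sub_const T1).abs.eventually_lt_const (u := ε) (by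
    rw [abs_lt] at hm1 ⊢
    constructor <;> linarith [hm1.1, hm1.2])
  have ev3 := (hB'.sub_const T3).abs.eventually_lt_const (u := ε) (by
    rw [abs_lt] at hm3 ⊢
    constructor <;> linarith [hm3.1, hm3.2])
  have ev := hlt.eventually (eventually_ge_atTop (m2.natAbs + m3.natAbs))
  obtain ⟨n, hn1, hn3, hn⟩ := (ev1.and (ev3.and ev)).exists
  refine ⟨_, _, _, _, ?_, ?_, hn1, hn3⟩
  · obtain ⟨t, ht⟩ := he2
    have := he n
    omega
  · obtain ⟨t, ht⟩ := he3
    have := he n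
    omega

end Pool.Agent.Q178.CPX.TaskTriple
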