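import Pool.Agent.Q178.CPX.Stmts

/-! Crowd lemma (helper234) for helper178's blueprint CPX. -/

namespace Pool.Agent.Q178.CPX.TaskUp
open Filter Topology Set Pool.Agent.Q178.CPX

theorem cont_wt (a : ℝ) (i j k l : ℕ) : Continuous (wt a i j k l) := by
  unfold wt; fun_prop

theorem wt_eq (a : ℝ) (k l : ℕ) (x : ℝ) :
    wt a k l l k x = |1 - x ^ 2| ^ k * |x ^ 2 - a ^ 2| ^ l := by
  unfold wt
  have h1 : |1 - x ^ 2| = |x + 1| * |x - 1| := by
    rw [← abs_mul, ← abs_neg]; congr 1; ring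
  have h2 : |x ^ 2 - a ^ 2| = |x + a| * |x - a| := by
    rw [← abs_mul]; congr 1; ring
  rw [h1, h2, mul_pow, mul_pow]; ring

theorem J2_le (a : ℝ) (ha : 0 < a) (ha1 : a < 1) (k l : ℕ) :
    J2 a k l l k ≤ 2 * a * (a ^ 2) ^ l := by
  unfold J2
  have h : (∫ x in (-a)..a, wt a k l l k x) ≤ ∫ x in (-a)..a, (a ^ 2) ^ l := by
    apply intervalIntegral.integral_mono_on (by linarith)
      ((cont_wt a k l l k).intervalIntegrable _ _) (by simp)
    intro x hx
    rw [wt_eq]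
    have hx2 : x ^ 2 ≤ a ^ 2 := by
      have := abs_le.mpr ⟨hx.1, hx.2⟩
      exact sq_le_sq.mpr (by rwa [abs_of_pos ha])
    have ha2 : a ^ 2 < 1 := by nlinarith
    have hx0 := sq_nonneg x
    have h1 : |1 - x ^ 2| ^ k ≤ 1 := by
      apply pow_le_one₀ (abs_nonneg _)
      rw [abs_le]; constructor <;> linarith
    have h2 : |x ^ 2 - a ^ 2| ^ l ≤ (a ^ 2) ^ l := by
      apply pow_le_pow_left₀ (abs_nonneg _)
      rw [abs_le]; constructor <;> linarith
    calc |1 - x ^ 2| ^ k * |x ^ 2 - a ^ 2| ^ l ≤ 1 * (a ^ 2) ^ l :=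
          mul_le_mul h1 h2 (by positivity) zero_le_one
      _ = _ := one_mul _
  refine h.trans (le_of_eq ?_)
  rw [intervalIntegral.integral_const, smul_eq_mul]; ring

theorem main (hpos : TaskPos) : Pool.Agent.Q178.CPX.TaskUp := by
  intro a ρ s hP η hη K
  obtain ⟨ha, has, hs1, hρ, -, hlog⟩ := hP
  have hs0 : 0 < s := ha.trans has
  have hA : 0 < 1 - s ^ 2 := by nlinarith
  have hA1 : 1 - s ^ 2 < 1 := by nlinarith
  have hsa : 0 < s ^ 2 - a ^ 2 := by nlinarith
  have hB0 : 0 < (s ^ 2 - a ^ 2) / a ^ 2 := by positivity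
  have hlA : Real.log (1 - s ^ 2) < 0 := Real.log_neg hA hA1
  have hlB : 0 < Real.log ((s ^ 2 - a ^ 2) / a ^ 2) := by
    by_contra hc
    push Not at hc
    have : ρ * Real.log ((s ^ 2 - a ^ 2) / a ^ 2) ≤ 0 := mul_nonpos_of_nonneg_of_nonpos hρ.le hc
    linarith
  have hB1 : 1 < (s ^ 2 - a ^ 2) / a ^ 2 := by
    by_contra hc
    push Not at hc
    exact absurd (Real.log_nonpos hB0.le hc) (not_le.mpr hlB)
  set G : ℝ → ℝ := fun x => (1 - x ^ 2) * ((x ^ 2 - a ^ 2) / a ^ 2) ^ (ρ + η) with hG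
  have hGs : 1 < G s := by
    have : G s = Real.exp (η * Real.log ((s ^ 2 - a ^ 2) / a ^ 2)) := by
      simp only [hG]
      rw [Real.rpow_def_of_pos hB0]
      nth_rewrite 1 [← Real.exp_log hA]
      rw [← Real.exp_add]
      congr 1
      linarith [hlog, mul_comm (Real.log ((s ^ 2 - a ^ 2) / a ^ 2)) (ρ + η)]
    rw [this]
    exact Real.one_lt_exp_iff.mpr (mul_pos hη hlB)
  obtain ⟨q, hq1, hq2⟩ := exists_between hGs
  have hGc : ContinuousAt G s := by
    simp only [hG]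
    apply ContinuousAt.mul (by fun_prop)
    apply ContinuousAt.rpow_const (by fun_prop)
    left; exact hB0.ne'
  have hHc : ContinuousAt (fun x : ℝ => (x ^ 2 - a ^ 2) / a ^ 2) s := by fun_prop
  have e1 : ∀ᶠ x in 𝓝 s, q < G x := hGc.eventually (lt_mem_nhds hq2)
  have e2 : ∀ᶠ x in 𝓝 s, 1 < (x ^ 2 - a ^ 2) / a ^ 2 := hHc.eventually (lt_mem_nhds hB1)
  have e3 : ∀ᶠ x in 𝓝 s, x < 1 := gt_mem_nhds hs1
  obtain ⟨δ, hδ, hball⟩ := Metric.eventually_nhds_iff.mp (e1.and (e2.and e3))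
  have hb : ∀ x ∈ Icc s (s + δ / 2), q < G x ∧ 1 < (x ^ 2 - a ^ 2) / a ^ 2 ∧ x < 1 := by
    intro x hx
    apply hball
    rw [Real.dist_eq, abs_lt]
    constructor <;> linarith [hx.1, hx.2]
  have ht1 : s + δ / 2 < 1 := (hb (s + δ / 2) ⟨by linarith, le_refl _⟩).2.2
  -- lower bound of J3
  have hJ3 : ∀ k l : ℕ, (ρ + η) * k ≤ (l : ℝ) → (δ / 2) * ((a ^ 2) ^ l * q ^ k) ≤ J3 a k l l k := by
    intro k l hkl
    unfold J3
    have h1 : (∫ x in s..(s + δ / 2), wt a k l l k x) ≤ ∫ x in a..(1 : ℝ), wt a k l l k x := by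
      apply intervalIntegral.integral_mono_interval has.le (by linarith) ht1.le
      · exact Eventually.of_forall (fun x => by
          simp only [Pi.zero_apply]; unfold wt; positivity)
      · exact (cont_wt a k l l k).intervalIntegrable _ _
    have h2 : (∫ x in s..(s + δ / 2), (a ^ 2) ^ l * q ^ k) ≤ ∫ x in s..(s + δ / 2), wt a k l l k x := by
      apply intervalIntegral.integral_mono_on (by linarith) (by simp)
        ((cont_wt a k l l k).intervalIntegrable _ _)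
      intro x hx
      obtain ⟨g1, g2, g3⟩ := hb x hx
      have hx0 : 0 < x := lt_of_lt_of_le hs0 hx.1
      have hx1 : 0 < 1 - x ^ 2 := by nlinarith
      have hxa : 0 < x ^ 2 - a ^ 2 := by
        have : 0 < (x ^ 2 - a ^ 2) / a ^ 2 := by linarith
        by_contra hc
        push Not at hc
        have := div_nonpos_of_nonpos_of_nonneg hc (by positivity : (0:ℝ) ≤ a ^ 2)
        linarith
      rw [wt_eq, abs_of_pos hx1, abs_of_pos hxa]
      have hd : x ^ 2 - a ^ 2 = a ^ 2 * ((x ^ 2 - a ^ 2) / a ^ 2) := by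
        field_simp
      set H : ℝ := (x ^ 2 - a ^ 2) / a ^ 2 with hH
      have hH0 : 0 < H := by linarith
      rw [hd, mul_pow]
      have h3 : (H ^ (ρ + η)) ^ k ≤ H ^ l := by
        rw [← Real.rpow_natCast, ← Real.rpow_mul hH0.le, ← Real.rpow_natCast]
        exact Real.rpow_le_rpow_of_exponent_le g2.le hkl
      have h4 : q ^ k ≤ (1 - x ^ 2) ^ k * H ^ l := by
        calc q ^ k ≤ (G x) ^ k := pow_le_pow_left₀ (by linarith) g1.le _
          _ = (1 - x ^ 2) ^ k * (H ^ (ρ + η)) ^ k := by simp only [hG, ← hH, mul_pow]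
          _ ≤ _ := by gcongr
      calc (a ^ 2) ^ l * q ^ k ≤ (a ^ 2) ^ l * ((1 - x ^ 2) ^ k * H ^ l) := by gcongr
        _ = _ := by ring
    refine le_trans (le_of_eq ?_) (h2.trans h1)
    rw [intervalIntegral.integral_const, smul_eq_mul]; ring
  -- conclude
  have hlim : Tendsto (fun k : ℕ => (δ / 2) * q ^ k / (2 * a)) atTop atTop := by
    apply Tendsto.atTop_div_const (by positivity)
    exact Tendsto.const_mul_atTop (by positivity) (tendsto_pow_atTop_atTop_of_one_lt hq1)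
  filter_upwards [hlim.eventually_gt_atTop K] with k hk l hkl
  refine hk.trans_le ?_
  unfold r
  have p2 : 0 < J2 a k l l k := (hpos a ha (has.trans hs1) k l l k).2.1
  rw [div_le_div_iff₀ (by positivity) p2]
  have h5 := J2_le a ha (has.trans hs1) k l
  have h6 := hJ3 k l hkl
  have hq0 : 0 < q := by linarith
  calc δ / 2 * q ^ k * J2 a k l l k ≤ δ / 2 * q ^ k * (2 * a * (a ^ 2) ^ l) := by gcongr
    _ = (δ / 2) * ((a ^ 2) ^ l * q ^ k) * (2 * a) := by ring
    _ ≤ J3 a k l l k * (2 * a) := by gcongr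

end Pool.Agent.Q178.CPX.TaskUp
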